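/-!
Bit-parallel enumeration of the ring colourings of a cubic patch: definitions.
-/

set_option autoImplicit false

namespace Pool.Agent.Lib.MP_fe5cb4_co.FC

/-- The number with the given digits in base three, lowest digit first. -/
def enc : List Nat → Nat
  | [] => 0
  | d :: l => d + 3 * enc l

/-- Three copies of `x` at distance `s`. -/
def tri (x s : Nat) : Nat := Nat.lor x (Nat.lor (Nat.shiftLeft x s) (Nat.shiftLeft x (2 * s)))

/-- The set of the numbers below `3 ^ (i + 1 + t)` whose digit `i` is zero. -/
def msk (i : Nat) : Nat → Nat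
  | 0 => Nat.pred (Nat.shiftLeft 1 (Nat.pow 3 i))
  | t + 1 => tri (msk i t) (Nat.pow 3 (i + 1 + t))

/-- The bits of `N` at `n + s`, `n` in `M`, moved to `n + s'`. -/
def mv (N M s s' : Nat) : Nat := Nat.shiftLeft (Nat.land (Nat.shiftRight N s) M) s'

/-- The union of the sets `f a`, `a` in the list. -/
def un (f : Nat → Nat) : List Nat → Nat
  | [] => 0
  | a :: l => Nat.lor (f a) (un f l)

/-- Membership in a list. -/
def mem (e : Nat) : List Nat → Bool
  | [] => false
  | a :: l => Nat.beq e a || mem e l

/-- The digit of a colour; zero if the edge is dropped. -/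
def dg (d : Bool) (c : Nat) : Nat := cond d 0 (Nat.pred c)

/-- The colour `t` is added at the two places of weights `p` and `q`. -/
def rel (N M p q : Nat) (li lj lt wi wj : List Nat) (di dj : Bool) : Nat :=
  un (fun t => un (fun a => un (fun b =>
    cond (mem (Nat.xor a t) wi && mem (Nat.xor b t) wj)
      (mv N M (Nat.pred a * p + Nat.pred b * q)
        (dg di (Nat.xor a t) * p + dg dj (Nat.xor b t) * q)) 0) lj) li) lt

/-- The pair `p` is the pair `a, b` up to the order. -/
def eqp (a b : Nat) (p : Nat × Nat) : Bool :=
  (Nat.beq a p.1 && Nat.beq b p.2) || (Nat.beq a p.2 && Nat.beq b p.1)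

/-- The vertices are equal or joined by an edge of `X`. -/
def zz (X : List (Nat × Nat)) (a b : Nat) : Bool := Nat.beq a b || X.any (eqp a b)

/-- The colours of the edge `a b`: zero on the contract, one on the edge `F`. -/
def rng (X : List (Nat × Nat)) (F : Nat × Nat) (a b : Nat) : List Nat :=
  cond (zz X a b) [0] (cond (eqp a b F) [1] [1, 2, 3])

/-- A step: the places `i`, `j` carry the edges `u v`, `w v` before and `u x`, `w x` after; the
new edges may be dropped. -/
structure Stp : Type where
  i : Nat
  j : Nat
  u : Nat
  v : Nat
  w : Nat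
  x : Nat
  di : Bool
  dj : Bool

/-- The set of colourings of the `k` places after the steps. -/
def run (k : Nat) (X : List (Nat × Nat)) (F : Nat × Nat) : List Stp → Nat → Nat
  | [], N => N
  | s :: P, N => run k X F P
      (rel N (Nat.land (msk s.i (k - 1 - s.i)) (msk s.j (k - 1 - s.j))) (Nat.pow 3 s.i)
        (Nat.pow 3 s.j) (rng X F s.u s.v) (rng X F s.w s.v) (rng X F s.v s.x) (rng X F s.u s.x)
        (rng X F s.w s.x) s.di s.dj)

/-- The label `p` is the edge `a b`, or both are empty. -/
def okl (a b : Nat) (p : Nat × Nat) : Bool := eqp a b p || (Nat.beq a b && Nat.beq p.1 p.2)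

/-- The labels `lab` are the edges of the first list and then empty. -/
def fin : List (Nat × Nat) → List (Nat × Nat) → Bool
  | [], lab => lab.all fun p => Nat.beq p.1 p.2
  | _ :: _, [] => false
  | q :: R, p :: lab => eqp q.1 q.2 p && fin R lab

/-- All steps are admissible and the last labels are `R`. -/
def wf (k : Nat) (R : List (Nat × Nat)) : List Stp → List (Nat × Nat) → List Nat → Bool
  | [], lab, _ => fin R lab
  | s :: P, lab, U => Nat.blt s.i k && Nat.blt s.j k && !Nat.beq s.i s.j &&
      okl s.u s.v (lab.getD s.i (0, 0)) && okl s.w s.v (lab.getD s.j (0, 0)) &&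
      (Nat.beq s.x s.w || !mem s.x (s.u :: s.v :: s.w :: U)) &&
      wf k R P ((lab.set s.i (cond s.di s.x s.u, s.x)).set s.j (cond s.dj s.x s.w, s.x))
        (s.x :: s.u :: s.v :: s.w :: U)

/-- The new edges of the steps. -/
def eds : List Stp → List (Nat × Nat)
  | [] => []
  | s :: P => (s.v, s.x) :: (s.u, s.x) :: (s.w, s.x) :: eds P

/-- The set of the ring colourings. -/
def ext (k : Nat) (X : List (Nat × Nat)) (F : Nat × Nat) (P : List Stp) : Nat := run k X F P 1

/-- The program is admissible for the ring `R`. -/
def wfP (k : Nat) (R : List (Nat × Nat)) (P : List Stp) : Bool :=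
  wf k R P (List.replicate k (0, 0)) []

/-- A number for an unordered pair. -/
def pr (a b : Nat) : Nat := cond (Nat.blt a b) (b * b + a) (a * a + b)

/-- The set of the numbers of the pairs. -/
def pset : List (Nat × Nat) → Nat
  | [] => 0
  | p :: l => Nat.lor (Nat.shiftLeft 1 (pr p.1 p.2)) (pset l)

/-- The pair is in the set. -/
def pin (M : Nat) (p : Nat × Nat) : Bool :=
  Nat.beq (Nat.land 1 (Nat.shiftRight M (pr p.1 p.2))) 1

/-- The edges at the interior vertices. -/
def wed : List (Nat × List Nat) → List (Nat × Nat)
  | [] => []
  | q :: W => q.2.map (fun b => (q.1, b)) ++ wed W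

/-- The edge of the ring at the place `p`. -/
def rpair (R : List Nat) (p : Nat) : Nat × Nat :=
  (R.getD (p % R.length) 0, R.getD ((p + 1) % R.length) 0)

/-- The edges of the ring. -/
def red (R : List Nat) : List (Nat × Nat) := (List.range R.length).map (rpair R)

/-- The edges of the ring but the first and the last, in reverse order. -/
def rfin (R : List Nat) : List (Nat × Nat) :=
  ((List.range' 1 (R.length - 2)).map (rpair R)).reverse

/-- The set of the ring words that start with the first colour, without the first and the last
letter. -/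
def wds (R : List Nat) (X : List (Nat × Nat)) (k : Nat) (P : List Stp) : Nat :=
  ext k X (rpair R 0) P

/-- The check for soundness: every edge of the ring or at an interior vertex is an edge of the
program. -/
def chk0 (W : List (Nat × List Nat)) (R : List Nat) (k : Nat) (P : List Stp) : Bool :=
  wfP k (rfin R) P && (red R ++ wed W).all fun p => !Nat.beq p.1 p.2 && pin (pset (eds P)) p

/-- The check for completeness: every edge of the program is empty, an edge at an interior vertex
or an edge of the ring, and the edges of the ring are not contracted. -/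
def chkX (W : List (Nat × List Nat)) (R : List Nat) (X : List (Nat × Nat)) (k : Nat)
    (P : List Stp) : Bool :=
  wfP k (rfin R) P && ((red R).all fun p => !zz X p.1 p.2) &&
    (eds P).all fun p => Nat.beq p.1 p.2 || pin (pset (red R ++ wed W)) p

/-- Three sets one after the other. -/
def cat (s x y z : Nat) : Nat := Nat.lor x (Nat.lor (Nat.shiftLeft y s) (Nat.shiftLeft z (2 * s)))

/-- The words of length `k` whose sum is not `0`, `1`, `2`, `3`. -/
def nz : Nat → Nat × Nat × Nat × Nat
  | 0 => (0, 1, 1, 1)
  | k + 1 => match nz k with
    | (a, b, c, d) => (cat (Nat.pow 3 k) b c d, cat (Nat.pow 3 k) a d c, cat (Nat.pow 3 k) d a b,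
        cat (Nat.pow 3 k) c b a)

/-- The valid words that do not extend. -/
def live0 (R : List Nat) (k : Nat) (P : List Stp) : Nat :=
  Nat.xor (nz (R.length - 2)).2.1 (wds R [] k P)

end Pool.Agent.Lib.MP_fe5cb4_co.FC
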