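import Mathlib
import Pool.Agent.Lib.MP_fe5cb4_co.FC.EnumDef

/-!
Bit-parallel enumeration of the ring colourings of a cubic patch: correctness.
-/

set_option autoImplicit false

namespace Pool.Agent.Lib.MP_fe5cb4_co.FC

/-- Lists of `k` digits. -/
def Dg (k : ℕ) (l : List ℕ) : Prop := l.length = k ∧ ∀ d ∈ l, d < 3

theorem enc_lt : ∀ {l : List ℕ}, (∀ d ∈ l, d < 3) → enc l < 3 ^ l.length
  | [], _ => by simp [enc]
  | d :: l, h => by
    have h1 := h d (by simp)
    have h2 := enc_lt (l := l) fun e he => h e (by simp [he])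
    simp only [enc, List.length_cons, pow_succ]
    omega

theorem enc_surj : ∀ (k n : ℕ), n < 3 ^ k → ∃ l, Dg k l ∧ enc l = n
  | 0, n, h => ⟨[], ⟨rfl, by simp⟩, by simp [enc]; omega⟩
  | k + 1, n, h => by
    obtain ⟨l, ⟨h1, h2⟩, h3⟩ := enc_surj k (n / 3) (by rw [pow_succ] at h; omega)
    refine ⟨n % 3 :: l, ⟨by simp [h1], ?_⟩, by simp only [enc]; omega⟩
    simp only [List.mem_cons, forall_eq_or_imp]
    exact ⟨by omega, h2⟩

theorem enc_dig : ∀ {l : List ℕ} (i : ℕ), (∀ d ∈ l, d < 3) → enc l / 3 ^ i % 3 = l.getD i 0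
  | [], i, _ => by simp [enc]
  | d :: l, 0, h => by
    have h1 := h d (by simp)
    simp only [enc, pow_zero, Nat.div_one, List.getD_cons_zero]
    omega
  | d :: l, i + 1, h => by
    have h1 := h d (by simp)
    rw [List.getD_cons_succ, ← enc_dig i fun e he => h e (by simp [he]), pow_succ',
      ← Nat.div_div_eq_div_mul, enc, show (d + 3 * enc l) / 3 = enc l by omega]

theorem enc_inj {k : ℕ} {l l' : List ℕ} (h : Dg k l) (h' : Dg k l') (e : enc l = enc l') :
    l = l' := by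
  refine List.ext_getElem (h.1.trans h'.1.symm) fun i h1 h2 => ?_
  have := enc_dig i h.2
  rw [e, enc_dig i h'.2, List.getD_eq_getElem _ _ h1, List.getD_eq_getElem _ _ h2] at this
  exact this.symm

theorem enc_set : ∀ (l : List ℕ) (i v : ℕ), i < l.length →
    enc (l.set i v) + l.getD i 0 * 3 ^ i = enc l + v * 3 ^ i
  | [], _, _, h => by simp at h
  | d :: l, 0, v, _ => by simp only [List.set_cons_zero, enc, List.getD_cons_zero]; omega
  | d :: l, i + 1, v, h => by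
    have := enc_set l i v (by simpa using h)
    simp only [List.set_cons_succ, enc, List.getD_cons_succ, pow_succ, ← mul_assoc]
    omega

theorem enc_zero (l : List ℕ) (m : ℕ) : enc (l ++ List.replicate m 0) = enc l := by
  induction l with
  | nil => induction m with
    | zero => rfl
    | succ m ih => simpa [List.replicate_succ, enc] using ih
  | cons d l ih => simp [enc, ih]

theorem Dg.set {k : ℕ} {l : List ℕ} (h : Dg k l) (i : ℕ) {v : ℕ} (hv : v < 3) :
    Dg k (l.set i v) :=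
  ⟨by rw [List.length_set, h.1], fun d hd => (List.mem_or_eq_of_mem_set hd).elim (h.2 d) (· ▸ hv)⟩

theorem enc_two {k i j : ℕ} {l : List ℕ} (h : l.length = k) (hi : i < k) (hj : j < k) (hij : i ≠ j)
    (h1 : l.getD i 0 = 0) (h2 : l.getD j 0 = 0) (a b : ℕ) :
    enc ((l.set i a).set j b) = enc l + (a * 3 ^ i + b * 3 ^ j) := by
  have e1 := enc_set l i a (h ▸ hi)
  have e2 := enc_set (l.set i a) j b (by rwa [List.length_set, h])
  rw [List.getD_eq_getElem?_getD, List.getElem?_set_ne hij, ← List.getD_eq_getElem?_getD] at e2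
  rw [h1] at e1
  rw [h2] at e2
  omega

theorem bit_shl (x s n : ℕ) : (Nat.shiftLeft x s).testBit n ↔ ∃ m, n = m + s ∧ x.testBit m := by
  rw [Nat.shiftLeft_eq', Nat.testBit_shiftLeft, Bool.and_eq_true, decide_eq_true_iff]
  exact ⟨fun h => ⟨n - s, by omega, h.2⟩, fun ⟨m, e, h⟩ => ⟨by omega, by simpa [e] using h⟩⟩

theorem bit_msk (i : ℕ) : ∀ t n : ℕ,
    (msk i t).testBit n ↔ n < 3 ^ (i + 1 + t) ∧ n / 3 ^ i % 3 = 0
  | 0, n => by
    have hp : 0 < 3 ^ i := by positivity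
    rw [msk, Nat.shiftLeft_eq', Nat.one_shiftLeft, Nat.pred_eq_sub_one, Nat.testBit_two_pow_sub_one,
      decide_eq_true_iff, Nat.pow_eq, add_zero, pow_succ', ← Nat.div_lt_iff_lt_mul hp,
      ← Nat.div_eq_zero_iff_lt hp]
    generalize n / 3 ^ i = q
    omega
  | t + 1, n => by
    have hp : 0 < 3 ^ i := by positivity
    have e : ∀ m c, (m + c * 3 ^ (i + 1 + t)) / 3 ^ i % 3 = m / 3 ^ i % 3 := fun m c => by
      rw [show c * 3 ^ (i + 1 + t) = (3 * (c * 3 ^ t)) * 3 ^ i by ring,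
        Nat.add_mul_div_right _ _ hp, Nat.add_mul_mod_self_left]
    simp only [msk, tri, Nat.lor_eq, Nat.testBit_or, Bool.or_eq_true, bit_shl, bit_msk i t,
      Nat.pow_eq, ← add_assoc, pow_succ _ (i + 1 + t)]
    constructor
    · rintro (⟨h1, h2⟩ | ⟨m, rfl, h1, h2⟩ | ⟨m, rfl, h1, h2⟩)
      · exact ⟨by omega, h2⟩
      · exact ⟨by omega, by simpa [h2] using e m 1⟩
      · exact ⟨by omega, by rw [e m 2, h2]⟩
    · rintro ⟨h1, h2⟩
      by_cases k1 : n < 3 ^ (i + 1 + t)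
      · exact .inl ⟨k1, h2⟩
      by_cases k2 : n < 2 * 3 ^ (i + 1 + t)
      · refine .inr (.inl ⟨n - 3 ^ (i + 1 + t), by omega, by omega, ?_⟩)
        rw [← e _ 1, ← h2]
        congr 2
        omega
      · refine .inr (.inr ⟨n - 2 * 3 ^ (i + 1 + t), by omega, by omega, ?_⟩)
        rw [← e _ 2, ← h2]
        congr 2
        omega

theorem bit_mv (N M s s' n : ℕ) :
    (mv N M s s').testBit n ↔ ∃ m, n = m + s' ∧ N.testBit (m + s) ∧ M.testBit m := by
  simp only [mv, bit_shl, Nat.land_eq, Nat.shiftRight_eq, Nat.testBit_and, Nat.testBit_shiftRight,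
    Bool.and_eq_true, add_comm s]

theorem bit_un (f : ℕ → ℕ) (n : ℕ) : ∀ l, (un f l).testBit n ↔ ∃ a ∈ l, (f a).testBit n
  | [] => by simp [un]
  | a :: l => by simp [un, bit_un f n l]

theorem mem_iff (e : ℕ) : ∀ l, mem e l ↔ e ∈ l
  | [] => by simp [mem]
  | a :: l => by simp [mem, mem_iff e l]

theorem rng_lt {X : List (ℕ × ℕ)} {F : ℕ × ℕ} {u v a : ℕ} (ha : a ∈ rng X F u v) : a - 1 < 3 := by
  unfold rng at ha
  cases h : zz X u v <;> cases h' : eqp u v F <;>
    simp only [h, h', cond, List.mem_cons, List.not_mem_nil, or_false] at ha <;> omega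

theorem rng_inj {X : List (ℕ × ℕ)} {F : ℕ × ℕ} {u v a b : ℕ} (ha : a ∈ rng X F u v)
    (hb : b ∈ rng X F u v) (e : a - 1 = b - 1) : a = b := by
  unfold rng at ha hb
  cases h : zz X u v <;> cases h' : eqp u v F <;>
    simp only [h, h', cond, List.mem_cons, List.not_mem_nil, or_false] at ha hb <;> omega

theorem bit_rel {k i j : ℕ} (hi : i < k) (hj : j < k) (hij : i ≠ j) (N : ℕ)
    (li lj lt wi wj : List ℕ) (di dj : Bool) (n : ℕ) :
    (rel N (Nat.land (msk i (k - 1 - i)) (msk j (k - 1 - j))) (Nat.pow 3 i) (Nat.pow 3 j)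
      li lj lt wi wj di dj).testBit n ↔ ∃ t ∈ lt, ∃ a ∈ li, ∃ b ∈ lj, a ^^^ t ∈ wi ∧
        b ^^^ t ∈ wj ∧ ∃ l, Dg k l ∧ N.testBit (enc ((l.set i (a - 1)).set j (b - 1))) ∧
          n = enc ((l.set i (dg di (a ^^^ t))).set j (dg dj (b ^^^ t))) := by
  simp only [rel, bit_un]
  refine exists_congr fun t => and_congr_right fun ht => exists_congr fun a =>
    and_congr_right fun ha => exists_congr fun b => and_congr_right fun hb => ?_
  rw [← mem_iff _ wi, ← mem_iff _ wj, ← and_assoc, ← Bool.and_eq_true, Nat.xor_eq, Nat.xor_eq]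
  cases mem (a ^^^ t) wi && mem (b ^^^ t) wj
  · simp
  simp only [cond, bit_mv, Nat.land_eq, Nat.testBit_and, Bool.and_eq_true, bit_msk, true_and,
    show i + 1 + (k - 1 - i) = k by omega, show j + 1 + (k - 1 - j) = k by omega, Nat.pow_eq,
    Nat.pred_eq_sub_one]
  constructor
  · rintro ⟨m, rfl, h1, ⟨h2, h3⟩, -, h4⟩
    obtain ⟨l, hl, rfl⟩ := enc_surj k m h2
    rw [enc_dig _ hl.2] at h3 h4
    exact ⟨l, hl, by rwa [enc_two hl.1 hi hj hij h3 h4], by rw [enc_two hl.1 hi hj hij h3 h4]⟩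
  · rintro ⟨l, hl, h1, rfl⟩
    have hl0 := (hl.set i (v := 0) (by omega)).set j (v := 0) (by omega)
    have e1 : ((l.set i 0).set j 0).getD i 0 = 0 := by
      simp [List.getElem?_set_ne hij.symm, List.getElem?_set_self (hl.1 ▸ hi)]
    have e2 : ((l.set i 0).set j 0).getD j 0 = 0 := by
      simp [List.getElem?_set_self (show j < (l.set i 0).length by simpa [hl.1] using hj)]
    have e3 : ∀ u v, (l.set i u).set j v = (((l.set i 0).set j 0).set i u).set j v := fun u v => by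
      rw [List.set_comm _ _ hij.symm (l := l.set i 0), List.set_set, List.set_set]
    have e4 := hl0.1 ▸ enc_lt hl0.2
    refine ⟨enc ((l.set i 0).set j 0), ?_, ?_, ⟨e4, ?_⟩, e4, ?_⟩
    · rw [e3, enc_two hl0.1 hi hj hij e1 e2]
    · rwa [e3, enc_two hl0.1 hi hj hij e1 e2] at h1
    · rw [enc_dig _ hl0.2, e1]
    · rw [enc_dig _ hl0.2, e2]

/-- The ends of the edge have the same colour exactly when the edge is contracted. -/
def OkE (X : List (ℕ × ℕ)) (F : ℕ × ℕ) (c : ℕ → ℕ) (p : ℕ × ℕ) : Prop :=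
  c p.1 ^^^ c p.2 ∈ rng X F p.1 p.2

/-- The digits of a colouring. -/
def dgs (c : ℕ → ℕ) (l : List (ℕ × ℕ)) : List ℕ := l.map fun p => (c p.1 ^^^ c p.2) - 1

theorem eqp_iff {a b : ℕ} {p : ℕ × ℕ} : eqp a b p ↔ p = (a, b) ∨ p = (b, a) := by
  obtain ⟨x, y⟩ := p
  simp only [eqp, Bool.or_eq_true, Bool.and_eq_true, Nat.beq_eq, Prod.mk.injEq]
  omega

theorem zz_iff {X : List (ℕ × ℕ)} {a b : ℕ} : zz X a b ↔ a = b ∨ (a, b) ∈ X ∨ (b, a) ∈ X := by
  simp [zz, eqp_iff, and_or_left, exists_or]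

theorem zz_comm (X : List (ℕ × ℕ)) (a b : ℕ) : zz X a b = zz X b a := by
  rw [Bool.eq_iff_iff, zz_iff, zz_iff, eq_comm, or_comm (a := (a, b) ∈ X)]

theorem rng_comm (X : List (ℕ × ℕ)) (F : ℕ × ℕ) (a b : ℕ) : rng X F a b = rng X F b a := by
  rw [rng, rng, zz_comm, show eqp a b F = eqp b a F by rw [Bool.eq_iff_iff, eqp_iff, eqp_iff, or_comm]]

theorem rng_self (X : List (ℕ × ℕ)) (F : ℕ × ℕ) (a : ℕ) : rng X F a a = [0] := by simp [rng, zz]

theorem okl_eq {a b : ℕ} {p : ℕ × ℕ} (h : okl a b p) (X : List (ℕ × ℕ)) (F : ℕ × ℕ) (c : ℕ → ℕ) :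
    c p.1 ^^^ c p.2 = c a ^^^ c b ∧ rng X F p.1 p.2 = rng X F a b := by
  simp only [okl, Bool.or_eq_true, eqp_iff, Bool.and_eq_true, Nat.beq_eq] at h
  rcases h with (rfl | rfl) | ⟨rfl, h⟩
  · exact ⟨rfl, rfl⟩
  · exact ⟨Nat.xor_comm _ _, rng_comm ..⟩
  · simp [h, rng_self]

theorem okE_drop {X : List (ℕ × ℕ)} {F : ℕ × ℕ} {c : ℕ → ℕ} {u x : ℕ} (h : OkE X F c (u, x))
    (d : Bool) : OkE X F c (cond d x u, x) := by
  cases d
  · exact h
  · simp [OkE, rng_self]

theorem dg_drop (c : ℕ → ℕ) (u x : ℕ) (d : Bool) :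
    (c (cond d x u) ^^^ c x) - 1 = dg d (c u ^^^ c x) := by
  cases d <;> simp [dg]

theorem fin_enc (c : ℕ → ℕ) : ∀ R lab, fin R lab → enc (dgs c lab) = enc (dgs c R)
  | [], [], _ => rfl
  | [], p :: lab, h => by
    simp only [fin, List.all_cons, Bool.and_eq_true, Nat.beq_eq] at h
    have := fin_enc c [] lab h.2
    simp only [dgs, List.map_cons, List.map_nil, enc, h.1, Nat.xor_self] at this ⊢
    omega
  | _ :: _, [], h => by simp [fin] at h
  | q :: R, p :: lab, h => by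
    simp only [fin, Bool.and_eq_true] at h
    have := fin_enc c R lab h.2
    have e := (okl_eq (p := p) (by rw [okl, h.1]; rfl) [] q c).1
    simp only [dgs, List.map_cons, enc, e] at this ⊢
    omega

theorem dgs_getD {c : ℕ → ℕ} {l : List (ℕ × ℕ)} {i : ℕ} (h : i < l.length) :
    (dgs c l).getD i 0 = (c (l.getD i (0, 0)).1 ^^^ c (l.getD i (0, 0)).2) - 1 := by
  simp [dgs, List.getElem?_eq_getElem h]

theorem getD_mem {β : Type} {l : List β} {i : ℕ} (h : i < l.length) (d : β) : l.getD i d ∈ l := by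
  rw [List.getD_eq_getElem _ _ h]
  exact List.getElem_mem _

theorem set_getD {l : List ℕ} (i : ℕ) : l.set i (l.getD i 0) = l := by
  by_cases h : i < l.length
  · rw [List.getD_eq_getElem _ _ h, List.set_getElem_self]
  · exact List.set_eq_of_length_le (by omega)

theorem dgs_dg {X : List (ℕ × ℕ)} {F : ℕ × ℕ} {c : ℕ → ℕ} {l : List (ℕ × ℕ)} (h : ∀ p ∈ l, OkE X F c p) :
    Dg l.length (dgs c l) :=
  ⟨by simp [dgs], fun d hd => by
    obtain ⟨p, hp, rfl⟩ := List.mem_map.1 hd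
    exact rng_lt (h p hp)⟩

theorem xor_mid (a b d : ℕ) : (a ^^^ b) ^^^ (b ^^^ d) = a ^^^ d := by
  rw [Nat.xor_assoc, Nat.xor_xor_cancel_left]

theorem mem_set2 {β : Type} {Q : β → Prop} {l : List β} {i j : ℕ} {a b : β} (h : ∀ p ∈ l, Q p)
    (ha : Q a) (hb : Q b) : ∀ p ∈ (l.set i a).set j b, Q p := fun p hp =>
  (List.mem_or_eq_of_mem_set hp).elim
    (fun hp => (List.mem_or_eq_of_mem_set hp).elim (h p) (· ▸ ha)) (· ▸ hb)

theorem run_complete {k : ℕ} {X R : List (ℕ × ℕ)} {F : ℕ × ℕ} {c : ℕ → ℕ} : ∀ (P : List Stp)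
    (lab : List (ℕ × ℕ)) (U : List ℕ) (N : ℕ), wf k R P lab U → lab.length = k →
    (∀ p ∈ lab, OkE X F c p) → (∀ p ∈ eds P, OkE X F c p) →
    N.testBit (enc (dgs c lab)) → (run k X F P N).testBit (enc (dgs c R))
  | [], lab, U, N, h, _, _, _, hN => by rwa [← fin_enc c R lab h]
  | s :: P, lab, U, N, h, hl, hd, hv, hN => by
    simp only [wf, Bool.and_eq_true, Nat.blt_eq, Bool.not_eq_true', ← Bool.not_eq_true,
      Nat.beq_eq] at h
    obtain ⟨⟨⟨⟨⟨⟨hi, hj⟩, hij⟩, h1⟩, h2⟩, -⟩, h⟩ := h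
    simp only [eds, List.mem_cons, forall_eq_or_imp] at hv
    obtain ⟨a1, a2, a3, hv⟩ := hv
    have b1 := hd _ (getD_mem (hl ▸ hi) (0, 0))
    have b2 := hd _ (getD_mem (hl ▸ hj) (0, 0))
    rw [OkE, (okl_eq h1 X F c).1, (okl_eq h1 X F c).2] at b1
    rw [OkE, (okl_eq h2 X F c).1, (okl_eq h2 X F c).2] at b2
    refine run_complete P _ _ _ h (by simp [hl]) (mem_set2 hd (okE_drop a2 _) (okE_drop a3 _)) hv ?_
    refine (bit_rel hi hj hij ..).2 ⟨_, a1, _, b1, _, b2, by rwa [xor_mid],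
      by rwa [xor_mid], _, hl ▸ dgs_dg hd, ?_, ?_⟩
    · rwa [← (okl_eq h1 X F c).1, ← (okl_eq h2 X F c).1, ← dgs_getD (hl ▸ hi), ← dgs_getD (hl ▸ hj),
        set_getD, set_getD]
    · simp only [dgs, List.map_set, xor_mid, dg_drop]

theorem run_sound {k : ℕ} {X R : List (ℕ × ℕ)} {F : ℕ × ℕ} {n : ℕ} : ∀ (P : List Stp) (lab : List (ℕ × ℕ))
    (U : List ℕ) (N : ℕ) (Q : (ℕ → ℕ) → Prop), wf k R P lab U → lab.length = k →
    (∀ p ∈ lab, p.1 = p.2 ∨ (p.1 ∈ U ∧ p.2 ∈ U)) →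
    (∀ c c', (∀ u ∈ U, c' u = c u) → Q c → Q c') →
    (∀ m, N.testBit m → ∃ c, (∀ v, c v < 4) ∧ Q c ∧ (∀ p ∈ lab, OkE X F c p) ∧
      m = enc (dgs c lab)) → (run k X F P N).testBit n →
    ∃ c, (∀ v, c v < 4) ∧ Q c ∧ (∀ p ∈ eds P, OkE X F c p) ∧ n = enc (dgs c R)
  | [], lab, U, N, Q, h, _, _, _, hN, hn => by
    obtain ⟨c, h0, h1, -, h2⟩ := hN n hn
    exact ⟨c, h0, h1, by simp [eds], fin_enc c R lab h ▸ h2⟩
  | s :: P, lab, U, N, Q, h, hl, hU, hQ, hN, hn => by
    simp only [wf, Bool.and_eq_true, Nat.blt_eq, Bool.not_eq_true', ← Bool.not_eq_true,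
      Nat.beq_eq, Bool.or_eq_true, mem_iff, List.mem_cons, not_or] at h
    obtain ⟨⟨⟨⟨⟨⟨hi, hj⟩, hij⟩, h1⟩, h2⟩, hf⟩, h⟩ := h
    obtain ⟨c, h0, ⟨h1, h2, h3, h4⟩, h5, h6⟩ := run_sound P _ (s.x :: s.u :: s.v :: s.w :: U) _
      (fun c => Q c ∧ OkE X F c (s.v, s.x) ∧ OkE X F c (s.u, s.x) ∧ OkE X F c (s.w, s.x)) h
      (by simp [hl]) (mem_set2 (fun p hp => (hU p hp).imp_right fun e => by simp [e.1, e.2])
        (by cases s.di <;> simp) (by cases s.dj <;> simp)) (fun c c' hc hq => by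
        simp only [List.mem_cons, forall_eq_or_imp] at hc
        simp only [OkE, hc.1, hc.2.1, hc.2.2.1, hc.2.2.2.1]
        exact ⟨hQ c c' hc.2.2.2.2 hq.1, hq.2⟩) (fun m hm => by
        obtain ⟨t, ht, a, ha, b, hb, hf', hg', l, hd, hN', rfl⟩ := (bit_rel hi hj hij ..).1 hm
        obtain ⟨c, q0, q1, q2, q3⟩ := hN _ hN'
        have q4 := enc_inj ((hd.set _ (rng_lt ha)).set _ (rng_lt hb)) (hl ▸ dgs_dg q2) q3
        have b1 := q2 _ (getD_mem (hl ▸ hi) (0, 0))
        have b2 := q2 _ (getD_mem (hl ▸ hj) (0, 0))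
        rw [OkE, (okl_eq h1 X F c).1, (okl_eq h1 X F c).2] at b1
        rw [OkE, (okl_eq h2 X F c).1, (okl_eq h2 X F c).2] at b2
        obtain rfl : a = c s.u ^^^ c s.v := rng_inj ha b1 (by
          rw [← (okl_eq h1 X F c).1, ← dgs_getD (hl ▸ hi), ← q4]
          simp [List.getElem?_set_ne (Ne.symm hij), List.getElem?_set_self (hd.1 ▸ hi)])
        obtain rfl : b = c s.w ^^^ c s.v := rng_inj hb b2 (by
          rw [← (okl_eq h2 X F c).1, ← dgs_getD (hl ▸ hj), ← q4]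
          simp [List.getElem?_set_self
            (show s.j < (l.set s.i _).length by simpa [hd.1] using hj)])
        obtain ⟨c', r0, r1, r2, r3, r4, r5⟩ : ∃ c' : ℕ → ℕ, (∀ v, c' v < 4) ∧
            (∀ u ∈ U, c' u = c u) ∧ c' s.u = c s.u ∧ c' s.v = c s.v ∧ c' s.w = c s.w ∧
            t = c' s.v ^^^ c' s.x := by
          rcases hf with e | ⟨e1, e2, e3, e4⟩
          · refine ⟨c, q0, fun _ _ => rfl, rfl, rfl, rfl, ?_⟩
            have : (c s.w ^^^ c s.v) ^^^ t = 0 := by simpa [e, rng_self] using hg'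
            rw [e, ← Nat.xor_eq_zero_iff.1 this, Nat.xor_comm]
          · refine ⟨Function.update c s.x (c s.v ^^^ t), fun v => ?_,
              fun u hu => Function.update_of_ne (fun e : u = s.x => e4 (e ▸ hu)) ..,
              Function.update_of_ne (Ne.symm e1) .., Function.update_of_ne (Ne.symm e2) ..,
              Function.update_of_ne (Ne.symm e3) .., ?_⟩
            · rw [Function.update_apply]
              split_ifs
              · exact Nat.xor_lt_two_pow (n := 2) (q0 _) (by have := rng_lt ht; omega)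
              · exact q0 v
            · rw [Function.update_of_ne (Ne.symm e2), Function.update_self,
                Nat.xor_xor_cancel_left]
        have e0 : ∀ p ∈ lab, c' p.1 ^^^ c' p.2 = c p.1 ^^^ c p.2 := fun p hp =>
          (hU p hp).elim (fun e => by simp [e]) fun e => by rw [r1 _ e.1, r1 _ e.2]
        subst r5
        rw [← r2, ← r3, xor_mid] at hf'
        rw [← r4, ← r3, xor_mid] at hg'
        refine ⟨c', r0, ⟨hQ c c' r1 q1, ht, hf', hg'⟩,
          mem_set2 (fun p hp => by rw [OkE, e0 p hp]; exact q2 p hp) (okE_drop hf' _)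
            (okE_drop hg' _), ?_⟩
        have e1 : dgs c' lab = dgs c lab := List.map_congr_left fun p hp => by rw [e0 p hp]
        rw [dgs, List.map_set, List.map_set, ← dgs, e1, ← q4, ← r2, ← r4, ← r3, xor_mid, xor_mid,
          dg_drop, dg_drop,
          List.set_comm _ _ (Ne.symm hij) (l := l.set s.i _), List.set_set, List.set_set]) hn
    exact ⟨c, h0, h1, by simp only [eds, List.mem_cons, forall_eq_or_imp]; exact ⟨h2, h3, h4, h5⟩,
      h6⟩

theorem enc_start (c : ℕ → ℕ) (k : ℕ) : enc (dgs c (List.replicate k (0, 0))) = 0 := by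
  simpa [dgs, enc] using enc_zero [] k

/-- Every colouring of the edges of the program is found. -/
theorem ext_complete {k : ℕ} {X R : List (ℕ × ℕ)} {F : ℕ × ℕ} {P : List Stp} (h : wfP k R P) {c : ℕ → ℕ}
    (hc : ∀ p ∈ eds P, OkE X F c p) : (ext k X F P).testBit (enc (dgs c R)) :=
  run_complete P _ _ _ h (by simp) (by simp [OkE, rng_self]) hc (by simp [enc_start])

/-- Every index found comes from a colouring of the edges of the program. -/
theorem ext_sound {k : ℕ} {X R : List (ℕ × ℕ)} {F : ℕ × ℕ} {P : List Stp} (h : wfP k R P) {n : ℕ}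
    (hn : (ext k X F P).testBit n) :
    ∃ c : ℕ → ℕ, (∀ v, c v < 4) ∧ (∀ p ∈ eds P, OkE X F c p) ∧ n = enc (dgs c R) := by
  obtain ⟨c, h1, -, h2⟩ := run_sound P _ _ _ (fun _ => True) h (by simp) (by simp) (by simp)
    (fun m hm => ⟨fun _ => 0, by simp, trivial, by simp [OkE, rng_self], by
      rw [enc_start, Nat.testBit_one_eq_true_iff_self_eq_zero.1 hm]⟩) hn
  exact ⟨c, h1, h2⟩

end Pool.Agent.Lib.MP_fe5cb4_co.FC
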