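/-!
The meaning of one Kempe step, as a stack machine on words.  A letter is `none` (the colour that
is kept), `some false` or `some true` (the two colours that are exchanged along an arc).
-/

namespace Pool.Agent.Lib.MP_fe5cb4_co.FC.Kempe

abbrev Rl : Type := Option Bool

/-- Some completion of the matching has all its flips in `g`; the stack holds the letters at the
open arcs, and the last position of the ring is not part of the word. -/
def ExZ : List Rl → List Bool → (List Bool → List Rl → Prop) → Prop
  | [], [], g => g [] []
  | [], [_], g => g [false] [] ∧ g [true] []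
  | [], _ :: _ :: _, _ => False
  | none :: e, σ, g => ExZ e σ fun σ' e' => g σ' (none :: e')
  | some v :: e, [], g => ExZ e [v] fun σ' e' => g σ'.tail (some (σ'.headD false) :: e')
  | some v :: e, t :: σ, g =>
    (ExZ e (v :: t :: σ) fun σ' e' => g σ'.tail (some (σ'.headD false) :: e')) ∨
      ExZ e σ fun σ' e' => g (t :: σ') (some v :: e') ∧ g ((!t) :: σ') (some (!v) :: e')

/-- The same with one more open arc below the stack, which is never flipped. -/
def ExF : List Rl → List Bool → (List Bool → List Rl → Prop) → Prop
  | [], [], g => g [] []
  | [], _ :: _, _ => False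
  | none :: e, σ, g => ExF e σ fun σ' e' => g σ' (none :: e')
  | some v :: e, [], g =>
    (ExF e [v] fun σ' e' => g σ'.tail (some (σ'.headD false) :: e')) ∨
      ExZ e [] fun _ e' => g [] (some v :: e')
  | some v :: e, t :: σ, g =>
    (ExF e (v :: t :: σ) fun σ' e' => g σ'.tail (some (σ'.headD false) :: e')) ∨
      ExF e σ fun σ' e' => g (t :: σ') (some v :: e') ∧ g ((!t) :: σ') (some (!v) :: e')

/-- No arc has been opened yet. -/
def ExU : List Rl → (List Rl → Prop) → Prop
  | [], g => g []
  | none :: e, g => ExU e fun e' => g (none :: e')
  | some false :: e, g => ExF e [] fun _ e' => g (some false :: e')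
  | some true :: e, g => g (some true :: e)

/-- A list of digits in base three, the first digit being the top one. -/
def cd : List Nat → Nat
  | [] => 0
  | v :: e => v * 3 ^ e.length + cd e

/-- The digit of a letter: the kept colour is `0` or `1`. -/
def dv (th : Bool) : Rl → Nat
  | none => cond th 1 0
  | some false => cond th 0 1
  | some true => 2

/-- The exchange of the digits `1` and `2`. -/
def sd : Nat → Nat
  | 0 => 0
  | 1 => 2
  | _ => 1

/-- What the bit-parallel steps deliver: `a` for the kept colour `0`, `b` for the kept colour `1`,
`w` for the exchange of `1` and `2`. -/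
structure Steps (k : Nat) (a b w : Nat → Nat) : Prop where
  ha : ∀ (L : Nat) (g : List Rl → Prop), (∀ e', e'.length = k → g e' → L.testBit (cd (e'.map (dv false))) = true) →
    ∀ e, e.length = k → ExU e g → (a L).testBit (cd (e.map (dv false))) = true
  hb : ∀ (L : Nat) (g : List Rl → Prop), (∀ e', e'.length = k → g e' → L.testBit (cd (e'.map (dv true))) = true) →
    ∀ e, e.length = k → ExF e [] (fun _ => g) → (b L).testBit (cd (e.map (dv true))) = true
  hw : ∀ (X : Nat) (l : List Nat), l.length = k → (∀ v ∈ l, v < 3) → X.testBit (cd l) = true →
    (w X).testBit (cd (l.map sd)) = true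

end Pool.Agent.Lib.MP_fe5cb4_co.FC.Kempe
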