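/-!
Kempe closure of a set of ring colourings, bit-parallel.  A set of colourings of the positions
`1 .. r-2` (position `0` has colour `0`, the last colour follows from parity) is a number with
`3^(r-2)` bits, position `1` being the top digit.  One step keeps the colourings for which some
non-crossing matching has all its flips inside the set.
-/

namespace Pool.Agent.Lib.MP_fe5cb4_co.FC.Kempe

noncomputable section

inductive T where
  | lf (w x y z : Nat) : T
  | nd (l r : T) : T

def nil : T := T.lf (nat_lit 0) (nat_lit 0) (nat_lit 0) (nat_lit 0)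
def T.l (t : T) : T := @T.rec (fun _ => T) (fun _ _ _ _ => nil) (fun l _ _ _ => l) t
def T.r (t : T) : T := @T.rec (fun _ => T) (fun _ _ _ _ => nil) (fun _ r _ _ => r) t
def T.w (t : T) : Nat := @T.rec (fun _ => Nat) (fun w _ _ _ => w) (fun _ _ _ _ => nat_lit 0) t
def T.x (t : T) : Nat := @T.rec (fun _ => Nat) (fun _ x _ _ => x) (fun _ _ _ _ => nat_lit 0) t
def T.y (t : T) : Nat := @T.rec (fun _ => Nat) (fun _ _ y _ => y) (fun _ _ _ _ => nat_lit 0) t
def T.z (t : T) : Nat := @T.rec (fun _ => Nat) (fun _ _ _ z => z) (fun _ _ _ _ => nat_lit 0) t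
def one (X : Nat) : T := T.lf X (nat_lit 0) (nat_lit 0) (nat_lit 0)

def hd (l : List T) : T := @List.rec T (fun _ => T) nil (fun a _ _ => a) l
def tl (l : List T) : List T := @List.rec T (fun _ => List T) [] (fun _ l _ => l) l
def hn (l : List Nat) : Nat := @List.rec Nat (fun _ => Nat) (nat_lit 0) (fun a _ _ => a) l
def tn (l : List Nat) : List Nat := @List.rec Nat (fun _ => List Nat) [] (fun _ l _ => l) l

def map1 (f : Nat → T) (t : T) : T :=
  @T.rec (fun _ => T) (fun w _ _ _ => f w) (fun _ _ l r => T.nd l r) t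

def zip4 (f : T → T → T → T → T) (d : Nat) : T → T → T → T → T :=
  @Nat.rec (fun _ => T → T → T → T → T) f
    (fun _ ih a b c e => T.nd (ih a.l b.l c.l e.l) (ih a.r b.r c.r e.r)) d

def ones (n : Nat) : Nat := Nat.sub (Nat.shiftLeft (nat_lit 1) n) (nat_lit 1)

def dbl (s : Nat) (j : Nat) : Nat :=
  @Nat.rec (fun _ => Nat) (ones s)
    (fun j ih => ih.lor (ih.shiftLeft ((s.mul (nat_lit 3)).shiftLeft j))) j

/-- `n` blocks of `s` ones with period `3 s` -/
def rep (s n : Nat) : Nat := (dbl s n.log2.succ).land (ones ((s.mul (nat_lit 3)).mul n))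

/-- sizes of the first and of the second third -/
def t1 (n : Nat) : Nat := (n.add (nat_lit 2)).div (nat_lit 3)
def t2 (n : Nat) : Nat := (n.add (nat_lit 1)).div (nat_lit 3)

/-- the maps of a state of depth `e + 1` (or `0`) with cells of `3 s` bits -/
structure SC where
  e : Nat
  lane : Nat → T
  unl : Nat → Nat → Nat → T

/-- the maps of a state of the next level -/
structure TC where
  e : Nat
  ca : T → T → T → T → T
  cb : T → T → T → T → T
  peel : Nat → T

def sc1 (th : Bool) (e s s2 c1 c2 m0 m1 m2 m3 m4 n1 n2 n3 : Nat) : SC :=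
  @Bool.rec (fun _ => SC)
    ⟨e, fun X => T.lf
        (((X.land m0).lor ((X.shiftRight c1).land n1)).lor ((X.shiftRight c2).land m2))
        ((((X.land m1).lor ((X.shiftRight c1).land n2)).lor ((X.shiftRight c2).land m3)).shiftRight s)
        ((((X.land m2).lor ((X.shiftRight c1).land n3)).lor ((X.shiftRight c2).land m4)).shiftRight s2) (nat_lit 0),
      fun p a b => T.lf
        (((((p.land m0).lor ((a.shiftLeft s).land m1)).lor ((b.shiftLeft s2).land m2)).lor
        ((((p.land n1).lor ((a.shiftLeft s).land n2)).lor ((b.shiftLeft s2).land n3)).shiftLeft c1)).lor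
        ((((p.land m2).lor ((a.shiftLeft s).land m3)).lor ((b.shiftLeft s2).land m4)).shiftLeft c2)) (nat_lit 0) (nat_lit 0) (nat_lit 0)⟩
    ⟨e, fun X => T.lf
        ((((X.land m1).lor ((X.shiftRight c1).land n2)).lor ((X.shiftRight c2).land m3)).shiftRight s)
        (((X.land m0).lor ((X.shiftRight c1).land n1)).lor ((X.shiftRight c2).land m2))
        ((((X.land m2).lor ((X.shiftRight c1).land n3)).lor ((X.shiftRight c2).land m4)).shiftRight s2) (nat_lit 0),
      fun p a b => T.lf
        (((((a.land m0).lor ((p.shiftLeft s).land m1)).lor ((b.shiftLeft s2).land m2)).lor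
        ((((a.land n1).lor ((p.shiftLeft s).land n2)).lor ((b.shiftLeft s2).land n3)).shiftLeft c1)).lor
        ((((a.land m2).lor ((p.shiftLeft s).land m3)).lor ((b.shiftLeft s2).land m4)).shiftLeft c2)) (nat_lit 0) (nat_lit 0) (nat_lit 0)⟩ th

def sc (th : Bool) (s e n : Nat) : SC :=
  let m0 := rep s (t1 n)
  let n0 := rep s (t2 n)
  let s2 := s.mul (nat_lit 2)
  let s3 := s.mul (nat_lit 3)
  sc1 th e s s2 ((s3.mul (t1 n)).sub s) ((s3.mul ((t1 n).add (t2 n))).sub s2)
    m0 (m0.shiftLeft s) (m0.shiftLeft s2) (m0.shiftLeft s3) (m0.shiftLeft (s.mul (nat_lit 4)))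
    (n0.shiftLeft s) (n0.shiftLeft s2) (n0.shiftLeft s3)

def tc1 (e o1 o2 w k1 k2 k3 : Nat) : TC :=
  ⟨e, fun e p a b => T.lf ((e.w.lor (p.x.shiftLeft o1)).lor
        (((a.x.land b.y).lor ((a.y.land b.x).shiftLeft w)).shiftLeft o2)) (nat_lit 0) (nat_lit 0) (nat_lit 0),
    fun e p a b => T.lf ((e.w.lor (p.y.shiftLeft o1)).lor
        (((a.x.land b.y).lor ((a.y.land b.x).shiftLeft w)).shiftLeft o2)) (nat_lit 0) (nat_lit 0) (nat_lit 0),
    fun Y => T.lf (Y.land k1) ((Y.land k2).shiftRight o1) ((Y.shiftRight o2).land k3)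
      ((Y.shiftRight o2).shiftRight w)⟩

def tc (s e a o c : Nat) : TC :=
  tc1 e (a.mul s) ((a.add o).mul s) (c.mul s) (ones (a.mul s)) (ones ((a.add o).mul s)) (ones (c.mul s))

def mkS (th : Bool) (s : Nat) (ws : List Nat) : Nat → List SC :=
  @List.rec Nat (fun _ => Nat → List SC) (fun _ => []) (fun n _ ih d => sc th s d.pred n :: ih d.succ) ws

def mkT (s : Nat) (nw : List Nat) : Nat → Nat → List Nat → List TC :=
  @List.rec Nat (fun _ => Nat → Nat → List Nat → List TC) (fun _ _ _ => [])
    (fun _ _ ih d o ws => tc s d.pred (hn ws) o (hn (tn ws)) :: ih d.succ (hn ws) (tn ws)) nw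

/-- widths of the next level; `c` entries at most, `o` is the width that comes from below -/
def nextW (c : Nat) : Nat → List Nat → List Nat :=
  @Nat.rec (fun _ => Nat → List Nat → List Nat) (fun _ _ => [])
    (fun _ ih o ws =>
      @Nat.rec (fun _ => List Nat) []
        (fun _ _ => (((hn ws).add o).add ((hn (tn ws)).mul (nat_lit 2))) :: ih (hn ws) (tn ws))
        ((hn ws).add o)) c

structure Lv where
  (s ks ks2 vs kv : Nat)
  (sF sZ : List SC)
  (tF tZ : List TC)

def plan (th : Bool) (uw k : Nat) : List Nat → List Nat → List Lv :=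
  @Nat.rec (fun _ => List Nat → List Nat → List Lv) (fun _ _ => [])
    (fun k ih wF wZ =>
      let s := Nat.pow (nat_lit 3) k
      let v := (hn wF).mul (nat_lit 2)
      let nF := nextW k.succ uw wF
      let nZ := nextW k.succ.succ v wZ
      ⟨s, ones s, (ones s).shiftLeft (s.mul (nat_lit 2)), (hn wF).mul s, ones ((hn wF).mul s),
        mkS th s wF (nat_lit 0), mkS th s wZ (nat_lit 0), mkT s nF (nat_lit 0) uw wF, mkT s nZ (nat_lit 0) v wZ⟩
        :: ih nF nZ) k

def lanes (cs : List SC) : List T → List T :=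
  @List.rec SC (fun _ => List T → List T) (fun _ => [])
    (fun c _ ih l => @SC.rec (fun _ => T) (fun _ f _ => map1 f (hd l)) c :: ih (tl l)) cs

def down1 (c : TC) (pv e a b : T) : T :=
  @TC.rec (fun _ => T) (fun d ca cb _ => T.nd (zip4 ca d e.l pv a.l b.l) (zip4 cb d e.r pv a.r b.r)) c

/-- the states of depth `1, 2, ..` of the next level -/
def down (cs : List TC) : T → List T → List T :=
  @List.rec TC (fun _ => T → List T → List T) (fun _ _ => [])
    (fun c _ ih pv l => down1 c pv (hd l) (hd (tl l)).l (hd (tl l)).r :: ih (hd l) (tl l)) cs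

def down0 (cs : List TC) (I : Nat) (l : List T) : List T :=
  @List.rec TC (fun _ => List T) []
    (fun c cs _ => c.ca (hd l) (T.lf (nat_lit 0) I (nat_lit 0) (nat_lit 0)) (hd (tl l)).l (hd (tl l)).r
        :: down cs (hd l) (tl l)) cs

def peels (cs : List TC) : List T → List T :=
  @List.rec TC (fun _ => List T → List T) (fun _ => [])
    (fun c _ ih l => @TC.rec (fun _ => T) (fun _ _ _ f => map1 f (hd l)) c :: ih (tl l)) cs

def ups1 (c : SC) (pv e a b : T) : T :=
  @SC.rec (fun _ => T) (fun d _ f =>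
    T.nd (zip4 (fun e a b p => f e.w (a.x.lor p.y) (b.x.lor p.z)) d e.l a.l b.l pv)
      (zip4 (fun e a b p => f e.w (a.x.lor p.z) (b.x.lor p.y)) d e.r a.r b.r pv)) c

def ups (cs : List SC) : T → List T → List T :=
  @List.rec SC (fun _ => T → List T → List T) (fun _ _ => [])
    (fun c _ ih pv l => ups1 c pv (hd l) (hd (tl l)).l (hd (tl l)).r :: ih (hd l) (tl l)) cs

def ups0 (cs : List SC) (ca cb : Nat) (l : List T) : List T :=
  @List.rec SC (fun _ => List T) []
    (fun c cs _ => c.unl (hd l).w ((hd (tl l)).l.x.lor ca) ((hd (tl l)).r.x.lor cb)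
        :: ups cs (hd l) (tl l)) cs

structure Res where
  u : Nat
  f : List T
  z : List T

def level2 (s ks2 vs kv : Nat) (sF sZ : List SC) (U u : Nat) (pF pZ : List T) : Res :=
  ⟨(u.lor ((hd pF).x.shiftLeft s)).lor (U.land ks2),
    ups0 sF ((hd pZ).x.land kv) ((hd pZ).x.shiftRight vs) pF, ups0 sZ (nat_lit 0) (nat_lit 0) pZ⟩

def level1 (ih : Nat → List T → List T → Res) (s ks ks2 vs kv : Nat) (sF sZ : List SC)
    (tF tZ : List TC) (U : Nat) (eF eZ : List T) : Res :=
  @Res.rec (fun _ => Res) (fun u f z => level2 s ks2 vs kv sF sZ U u (peels tF f) (peels tZ z))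
    (ih (U.land ks) (down0 tF ((U.shiftRight s).land ks) eF)
      (down0 tZ ((hd eF).x.lor ((hd eF).y.shiftLeft vs)) eZ))

def base (U : Nat) (F Z : List T) : Res :=
  let b := one ((hd (tl Z)).l.w.land (hd (tl Z)).r.w)
  ⟨U, F, [hd Z, T.nd b b]⟩

def dp (P : List Lv) : Nat → List T → List T → Res :=
  @List.rec Lv (fun _ => Nat → List T → List T → Res) base
    (fun c _ ih U F Z => @Lv.rec (fun _ => Res) (fun s ks ks2 vs kv sF sZ tF tZ =>
      level1 ih s ks ks2 vs kv sF sZ tF tZ U (lanes sF F) (lanes sZ Z)) c) P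

structure WC where
  (s m0 m1 m2 : Nat)

def planW (k : Nat) : Nat → List WC :=
  @Nat.rec (fun _ => Nat → List WC) (fun _ => [])
    (fun k ih n =>
      let s := Nat.pow (nat_lit 3) k
      let m := rep s n
      ⟨s, m, m.shiftLeft s, m.shiftLeft (s.mul (nat_lit 2))⟩ :: ih (n.mul (nat_lit 3))) k

/-- exchanges the colours 1 and 2 -/
def sw (P : List WC) : Nat → Nat :=
  @List.rec WC (fun _ => Nat → Nat) (fun X => X)
    (fun c _ ih X => @WC.rec (fun _ => Nat) (fun s m0 m1 m2 =>
      ih (((X.land m0).lor ((X.land m1).shiftLeft s)).lor ((X.land m2).shiftRight s))) c) P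

def sym (W : List WC) (L K : Nat) : Nat := (L.land K).land (sw W K)

def stA (P : List Lv) (L : Nat) : Nat := (dp P L [] []).u
def stB (P : List Lv) (L : Nat) : Nat := (hd (dp P (nat_lit 0) [one L] []).f).w

def step (W : List WC) (PA PB : List Lv) (p L : Nat) : Nat :=
  sym W L (@Nat.rec (fun _ => Nat) (stA PA L) (fun _ _ => stB PB L) (p.land (nat_lit 1)))

def run1 (W : List WC) (PA PB : List Lv) (n : Nat) : Nat → Nat → Nat :=
  @Nat.rec (fun _ => Nat → Nat → Nat) (fun _ L => L)
    (fun n ih p L => @Nat.rec (fun _ => Nat) (nat_lit 0)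
      (fun L _ => ih (p.shiftRight (nat_lit 1)) (step W PA PB p (L.succ.sub (n.sub n)))) L) n

def pA (k : Nat) : List Lv := plan false (nat_lit 1) k [] []
def pB (k : Nat) : List Lv := plan true (nat_lit 0) k [nat_lit 1] []
def pW (k : Nat) : List WC := planW k (nat_lit 1)

/-- `n` steps; the bits of `p` choose the kind -/
def run (k n p L : Nat) : Nat := run1 (pW k) (pA k) (pB k) n p L

end

end Pool.Agent.Lib.MP_fe5cb4_co.FC.Kempe
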