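import Mathlib.Tactic.Ring
import Mathlib.Tactic.Linarith
import Pool.Agent.Lib.MP_fe5cb4_co.FC.Kempe
import Pool.Agent.Lib.MP_fe5cb4_co.FC.KSem

/-!
Bit lemmas for the Kempe steps.
-/

namespace Pool.Agent.Lib.MP_fe5cb4_co.FC.Kempe

/-- The bit is set. -/
def B (X i : Nat) : Prop := X.testBit i = true

theorem B_and {a b i : Nat} (h1 : B a i) (h2 : B b i) : B (a.land b) i := by
  unfold B at *
  rw [Nat.land_eq, Nat.testBit_and, h1, h2]; rfl

theorem B_orl {a b i : Nat} (h : B a i) : B (a.lor b) i := by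
  unfold B at *
  rw [Nat.lor_eq, Nat.testBit_or, h]; rfl

theorem B_orr {a b i : Nat} (h : B b i) : B (a.lor b) i := by
  unfold B at *
  rw [Nat.lor_eq, Nat.testBit_or, h]; simp

theorem B_shl {a i n j : Nat} (h : B a i) (e : j = i + n) : B (a.shiftLeft n) j := by
  unfold B at *
  subst e
  rw [Nat.shiftLeft_eq', Nat.testBit_shiftLeft]
  simp [h]

theorem B_shr {a i n j : Nat} (h : B a j) (e : j = n + i) : B (a.shiftRight n) i := by
  unfold B at *
  subst e
  show (a >>> n).testBit i = true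
  rw [Nat.testBit_shiftRight, h]

theorem B_ne {a i : Nat} (h : B a i) : a ≠ 0 := by
  rintro rfl
  simp [B] at h

theorem B_ones {n i : Nat} (h : i < n) : B (ones n) i := by
  unfold B ones
  have : Nat.sub (Nat.shiftLeft (nat_lit 1) n) (nat_lit 1) = 2 ^ n - 1 := by
    rw [Nat.shiftLeft_eq', Nat.shiftLeft_eq]; simp
  rw [this, Nat.testBit_two_pow_sub_one]
  simpa using h

theorem B_dbl {s x : Nat} (hx : x < s) : ∀ (j a : Nat), a < 2 ^ j → B (dbl s j) (a * (3 * s) + x)
  | 0, a, h => by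
    have : a = 0 := by simpa using h
    subst this
    exact B_ones (by omega)
  | j + 1, a, h => by
    show B ((dbl s j).lor ((dbl s j).shiftLeft ((s.mul (nat_lit 3)).shiftLeft j))) _
    by_cases ha : a < 2 ^ j
    · exact B_orl (B_dbl hx j a ha)
    · obtain ⟨c, rfl⟩ : ∃ c, a = 2 ^ j + c := ⟨a - 2 ^ j, by omega⟩
      refine B_orr (B_shl (B_dbl hx j c (by rw [Nat.pow_succ] at h; omega)) ?_)
      rw [Nat.shiftLeft_eq', Nat.shiftLeft_eq]
      show _ = _ + s * 3 * 2 ^ j
      ring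

theorem B_rep {s n a x : Nat} (ha : a < n) (hx : x < s) : B (rep s n) (a * (3 * s) + x) := by
  refine B_and (B_dbl hx _ _ (Nat.lt_trans ha Nat.lt_log2_self)) (B_ones ?_)
  show _ < s * 3 * n
  obtain ⟨c, rfl⟩ : ∃ c, n = a + 1 + c := ⟨n - a - 1, by omega⟩
  have : s * 3 * (a + 1 + c) = a * (3 * s) + 3 * s + s * 3 * c := by ring
  omega

/-- the new place of a cell -/
def nx (n b : Nat) : Nat :=
  if b < t1 n then 3 * b else if b < t1 n + t2 n then 3 * (b - t1 n) + 1 else 3 * (b - t1 n - t2 n) + 2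

theorem t1_eq (n : Nat) : t1 n = (n + 2) / 3 := rfl
theorem t2_eq (n : Nat) : t2 n = (n + 1) / 3 := rfl

theorem nx_lt {n b : Nat} (h : b < n) : nx n b < n := by
  unfold nx
  rw [t1_eq, t2_eq]
  split_ifs <;> omega

def sel (a b c m0 m1 m2 : Nat) : Nat := ((a.land m0).lor (b.land m1)).lor (c.land m2)

def c1 (s n : Nat) : Nat := ((s.mul 3).mul (t1 n)).sub s
def c2 (s n : Nat) : Nat := ((s.mul 3).mul ((t1 n).add (t2 n))).sub (s.mul 2)

theorem c1_eq {s n : Nat} (h : 0 < n) : c1 s n + s = t1 n * (3 * s) := by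
  obtain ⟨c, hc⟩ : ∃ c, t1 n = c + 1 := ⟨t1 n - 1, by rw [t1_eq]; omega⟩
  show s * 3 * t1 n - s + s = _
  rw [hc]
  have : s * 3 * (c + 1) = (c + 1) * (3 * s) := by ring
  have : (c + 1) * (3 * s) = c * (3 * s) + 3 * s := by ring
  omega

theorem c2_eq {s n : Nat} (h : 0 < n) : c2 s n + 2 * s = t1 n * (3 * s) + t2 n * (3 * s) := by
  obtain ⟨c, hc⟩ : ∃ c, t1 n = c + 1 := ⟨t1 n - 1, by rw [t1_eq]; omega⟩
  show s * 3 * (t1 n + t2 n) - s * 2 + 2 * s = _
  rw [hc]
  have : s * 3 * (c + 1 + t2 n) = (c + 1) * (3 * s) + t2 n * (3 * s) := by ring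
  have : (c + 1) * (3 * s) = c * (3 * s) + 3 * s := by ring
  omega

/-- the three places of a cell -/
theorem thirds {n b : Nat} (hb : b < n) :
    (b < t1 n ∧ nx n b = 3 * b) ∨ (∃ a, a < t2 n ∧ b = t1 n + a ∧ nx n b = 3 * a + 1) ∨
      ∃ a, a < t1 n ∧ b = t1 n + t2 n + a ∧ nx n b = 3 * a + 2 := by
  unfold nx
  split_ifs with h1 h2
  · exact Or.inl ⟨h1, rfl⟩
  · exact Or.inr (Or.inl ⟨b - t1 n, by omega, by omega, rfl⟩)
  · refine Or.inr (Or.inr ⟨b - t1 n - t2 n, ?_, by omega, rfl⟩)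
    rw [t1_eq, t2_eq] at *
    omega

theorem lane_core {s n b x J X m1 m2 m3 : Nat} (hb : b < n)
    (h1 : ∀ a < t1 n, B m1 (a * (3 * s) + x + J)) (h2 : ∀ a < t2 n, B m2 (a * (3 * s) + x + (J + s)))
    (h3 : ∀ a < t1 n, B m3 (a * (3 * s) + x + (J + 2 * s))) (h : B X (b * (3 * s) + J + x)) :
    B (sel X (X.shiftRight (c1 s n)) (X.shiftRight (c2 s n)) m1 m2 m3) (J + (nx n b * s + x)) := by
  have e1 := c1_eq (s := s) (Nat.zero_lt_of_lt hb)
  have e2 := c2_eq (s := s) (Nat.zero_lt_of_lt hb)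
  rcases thirds hb with ⟨ha, e⟩ | ⟨a, ha, rfl, e⟩ | ⟨a, ha, rfl, e⟩ <;> rw [e]
  · have : 3 * b * s = b * (3 * s) := by ring
    refine B_orl (B_orl (B_and ?_ ?_))
    · convert h using 1; omega
    · convert h1 b ha using 1; omega
  · have : (3 * a + 1) * s = a * (3 * s) + s := by ring
    have : (t1 n + a) * (3 * s) = t1 n * (3 * s) + a * (3 * s) := by ring
    refine B_orl (B_orr (B_and (B_shr h (by omega)) ?_))
    convert h2 a ha using 1; omega
  · have : (3 * a + 2) * s = a * (3 * s) + 2 * s := by ring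
    have : (t1 n + t2 n + a) * (3 * s) = t1 n * (3 * s) + t2 n * (3 * s) + a * (3 * s) := by ring
    refine B_orr (B_and (B_shr h (by omega)) ?_)
    convert h3 a ha using 1; omega

theorem unl_core {s n b x J P Q R : Nat} (hb : b < n)
    (h1 : ∀ a < t1 n, nx n b = 3 * a → B P (J + (3 * a * s + x)))
    (h2 : ∀ a < t2 n, nx n b = 3 * a + 1 → B Q (J + ((3 * a + 1) * s + x)))
    (h3 : ∀ a < t1 n, nx n b = 3 * a + 2 → B R (J + ((3 * a + 2) * s + x))) :
    B ((P.lor (Q.shiftLeft (c1 s n))).lor (R.shiftLeft (c2 s n))) (b * (3 * s) + J + x) := by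
  have e1 := c1_eq (s := s) (Nat.zero_lt_of_lt hb)
  have e2 := c2_eq (s := s) (Nat.zero_lt_of_lt hb)
  rcases thirds hb with ⟨ha, e⟩ | ⟨a, ha, rfl, e⟩ | ⟨a, ha, rfl, e⟩
  · have : 3 * b * s = b * (3 * s) := by ring
    refine B_orl (B_orl ?_)
    convert h1 b ha e using 1; omega
  · have : (3 * a + 1) * s = a * (3 * s) + s := by ring
    have : (t1 n + a) * (3 * s) = t1 n * (3 * s) + a * (3 * s) := by ring
    exact B_orl (B_orr (B_shl (h2 a ha e) (by omega)))
  · have : (3 * a + 2) * s = a * (3 * s) + 2 * s := by ring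
    have : (t1 n + t2 n + a) * (3 * s) = t1 n * (3 * s) + t2 n * (3 * s) + a * (3 * s) := by ring
    exact B_orr (B_shl (h3 a ha e) (by omega))

/-- the mask for the lane `j` -/
def mk (s n j : Nat) : Nat := (rep s n).shiftLeft (s.mul j)

theorem B_mk {s n j a x i : Nat} (ha : a < n) (hx : x < s) (e : i = a * (3 * s) + x + j * s) :
    B (mk s n j) i :=
  B_shl (B_rep ha hx) (by rw [e]; show _ = _ + s * j; rw [Nat.mul_comm j s])

theorem B_mk1 {s n a x i : Nat} (ha : a < n) (hx : x < s) (e : i = a * (3 * s) + x + s) :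
    B ((rep s n).shiftLeft s) i := B_shl (B_rep ha hx) e

theorem B_mk0 {s n a x i : Nat} (ha : a < n) (hx : x < s) (e : i = a * (3 * s) + x) :
    B (rep s n) i := e ▸ B_rep ha hx

def x0 (s n X : Nat) : Nat :=
  sel X (X.shiftRight (c1 s n)) (X.shiftRight (c2 s n)) (rep s (t1 n)) ((rep s (t2 n)).shiftLeft s) (mk s (t1 n) 2)
def x1 (s n X : Nat) : Nat :=
  (sel X (X.shiftRight (c1 s n)) (X.shiftRight (c2 s n)) ((rep s (t1 n)).shiftLeft s) (mk s (t2 n) 2)
    (mk s (t1 n) 3)).shiftRight s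
def x2 (s n X : Nat) : Nat :=
  (sel X (X.shiftRight (c1 s n)) (X.shiftRight (c2 s n)) (mk s (t1 n) 2) (mk s (t2 n) 3)
    (mk s (t1 n) 4)).shiftRight (s.mul 2)
def yy (s n u v w : Nat) : Nat :=
  ((sel u v w (rep s (t1 n)) ((rep s (t1 n)).shiftLeft s) (mk s (t1 n) 2)).lor
    ((sel u v w ((rep s (t2 n)).shiftLeft s) (mk s (t2 n) 2) (mk s (t2 n) 3)).shiftLeft (c1 s n))).lor
    ((sel u v w (mk s (t1 n) 2) (mk s (t1 n) 3) (mk s (t1 n) 4)).shiftLeft (c2 s n))

section
variable {s n b x X : Nat} (hb : b < n) (hx : x < s)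
include hb hx

theorem B_x0 (h : B X (b * (3 * s) + 0 * s + x)) : B (x0 s n X) (nx n b * s + x) := by
  have := lane_core (s := s) (x := x) (J := 0) hb (fun a ha => B_mk0 (s := s) (x := x) ha hx (by omega))
    (fun a ha => B_mk1 ha hx (by omega))
    (fun a ha => B_mk (j := 2) ha hx (by omega)) (X := X) (by simpa using h)
  rw [Nat.zero_add] at this
  exact this

theorem B_x1 (h : B X (b * (3 * s) + 1 * s + x)) : B (x1 s n X) (nx n b * s + x) :=
  B_shr (lane_core (J := s) hb (fun a ha => B_mk1 ha hx (by omega)) (fun a ha => B_mk (j := 2) ha hx (by omega))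
    (fun a ha => B_mk (j := 3) ha hx (by omega)) (by simpa using h)) rfl

theorem B_x2 (h : B X (b * (3 * s) + 2 * s + x)) : B (x2 s n X) (nx n b * s + x) :=
  B_shr (lane_core (J := 2 * s) hb (fun a ha => B_mk (j := 2) ha hx (by omega))
    (fun a ha => B_mk (j := 3) ha hx (by omega)) (fun a ha => B_mk (j := 4) ha hx (by omega)) h)
    (by show _ = s * 2 + _; omega)

variable {u v w : Nat}

theorem B_y0 (h : B u (nx n b * s + x)) : B (yy s n u v w) (b * (3 * s) + 0 * s + x) := by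
  refine unl_core hb (fun a ha e => ?_) (fun a ha e => ?_) (fun a ha e => ?_) <;> rw [e] at h
  · have : 3 * a * s = a * (3 * s) := by ring
    exact B_orl (B_orl (B_and (by simpa using h) (B_mk0 ha hx (by omega))))
  · have : (3 * a + 1) * s = a * (3 * s) + s := by ring
    exact B_orl (B_orl (B_and (by simpa using h) (B_mk1 ha hx (by omega))))
  · have : (3 * a + 2) * s = a * (3 * s) + 2 * s := by ring
    exact B_orl (B_orl (B_and (by simpa using h) (B_mk (j := 2) ha hx (by omega))))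

theorem B_y1 (h : B v (nx n b * s + x)) : B (yy s n u (v.shiftLeft s) w) (b * (3 * s) + 1 * s + x) := by
  refine unl_core hb (fun a ha e => ?_) (fun a ha e => ?_) (fun a ha e => ?_) <;> rw [e] at h
  · have : 3 * a * s = a * (3 * s) := by ring
    exact B_orl (B_orr (B_and (B_shl h (by omega)) (B_mk1 ha hx (by omega))))
  · have : (3 * a + 1) * s = a * (3 * s) + s := by ring
    exact B_orl (B_orr (B_and (B_shl h (by omega)) (B_mk (j := 2) ha hx (by omega))))
  · have : (3 * a + 2) * s = a * (3 * s) + 2 * s := by ring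
    exact B_orl (B_orr (B_and (B_shl h (by omega)) (B_mk (j := 3) ha hx (by omega))))

theorem B_y2 (h : B w (nx n b * s + x)) :
    B (yy s n u v (w.shiftLeft (s.mul 2))) (b * (3 * s) + 2 * s + x) := by
  have e2 : s.mul 2 = 2 * s := Nat.mul_comm s 2
  refine unl_core hb (fun a ha e => ?_) (fun a ha e => ?_) (fun a ha e => ?_) <;> rw [e] at h
  · have : 3 * a * s = a * (3 * s) := by ring
    exact B_orr (B_and (B_shl h (by omega)) (B_mk (j := 2) ha hx (by omega)))
  · have : (3 * a + 1) * s = a * (3 * s) + s := by ring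
    exact B_orr (B_and (B_shl h (by omega)) (B_mk (j := 3) ha hx (by omega)))
  · have : (3 * a + 2) * s = a * (3 * s) + 2 * s := by ring
    exact B_orr (B_and (B_shl h (by omega)) (B_mk (j := 4) ha hx (by omega)))

end

theorem sc_false (s e n : Nat) : sc false s e n =
    ⟨e, fun X => T.lf (x0 s n X) (x1 s n X) (x2 s n X) 0,
      fun p a b => T.lf (yy s n p (a.shiftLeft s) (b.shiftLeft (s.mul 2))) 0 0 0⟩ := rfl

theorem sc_true (s e n : Nat) : sc true s e n =
    ⟨e, fun X => T.lf (x1 s n X) (x0 s n X) (x2 s n X) 0,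
      fun p a b => T.lf (yy s n a (p.shiftLeft s) (b.shiftLeft (s.mul 2))) 0 0 0⟩ := rfl

/-- the number that belongs to a letter -/
def pick : Rl → Nat → Nat → Nat → Nat
  | none, p, _, _ => p
  | some false, _, a, _ => a
  | some true, _, _, b => b

noncomputable def fld (v : Rl) (t : T) : Nat := pick v t.w t.x t.y

theorem sc_e (th : Bool) (s e n : Nat) : (sc th s e n).e = e := by cases th <;> rfl

theorem lane_bit {th : Bool} {s e n b x X : Nat} {v : Rl} (hb : b < n) (hx : x < s)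
    (h : B X (b * (3 * s) + dv th v * s + x)) : B (fld v ((sc th s e n).lane X)) (nx n b * s + x) := by
  cases th
  · rw [sc_false]
    rcases v with _ | _ | _
    · exact B_x0 hb hx h
    · exact B_x1 hb hx h
    · exact B_x2 hb hx h
  · rw [sc_true]
    rcases v with _ | _ | _
    · exact B_x1 hb hx h
    · exact B_x0 hb hx h
    · exact B_x2 hb hx h

theorem unl_bit {th : Bool} {s e n b x p a c : Nat} {v : Rl} (hb : b < n) (hx : x < s)
    (h : B (pick v p a c) (nx n b * s + x)) :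
    B ((sc th s e n).unl p a c).w (b * (3 * s) + dv th v * s + x) := by
  cases th
  · rw [sc_false]
    rcases v with _ | _ | _
    · exact B_y0 hb hx h
    · exact B_y1 hb hx h
    · exact B_y2 hb hx h
  · rw [sc_true]
    rcases v with _ | _ | _
    · exact B_y1 hb hx h
    · exact B_y0 hb hx h
    · exact B_y2 hb hx h

/-- the packed number -/
def cat (s a o c L O S D : Nat) : Nat :=
  (L.lor (O.shiftLeft (a * s))).lor ((S.lor (D.shiftLeft (c * s))).shiftLeft ((a + o) * s))

theorem tc_ca (s d a o c : Nat) (e p u v : T) : ((tc s d a o c).ca e p u v).w =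
    cat s a o c e.w p.x (u.x.land v.y) (u.y.land v.x) := rfl
theorem tc_cb (s d a o c : Nat) (e p u v : T) : ((tc s d a o c).cb e p u v).w =
    cat s a o c e.w p.y (u.x.land v.y) (u.y.land v.x) := rfl

section
variable {s a o c L O S D i x : Nat}

theorem cat_L (h : B L (i * s + x)) : B (cat s a o c L O S D) (i * s + x) := B_orl (B_orl h)
theorem cat_O (h : B O (i * s + x)) : B (cat s a o c L O S D) ((a + i) * s + x) :=
  B_orl (B_orr (B_shl h (by ring)))
theorem cat_S (h : B S (i * s + x)) : B (cat s a o c L O S D) ((a + o + i) * s + x) :=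
  B_orr (B_shl (B_orl h) (by ring))
theorem cat_D (h : B D (i * s + x)) : B (cat s a o c L O S D) ((a + o + c + i) * s + x) :=
  B_orr (B_shl (B_orr (B_shl h rfl)) (by ring))

theorem cell_lt {n : Nat} (hi : i < n) (hx : x < s) : i * s + x < n * s := by
  obtain ⟨c, rfl⟩ : ∃ c, n = i + 1 + c := ⟨n - i - 1, by omega⟩
  have : (i + 1 + c) * s = i * s + s + c * s := by ring
  omega

variable {d Y : Nat}

theorem peel_L (hi : i < a) (hx : x < s) (h : B Y (i * s + x)) : B ((tc s d a o c).peel Y).w (i * s + x) :=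
  B_and h (B_ones (cell_lt hi hx))
theorem peel_O (hi : i < o) (hx : x < s) (h : B Y ((a + i) * s + x)) :
    B ((tc s d a o c).peel Y).x (i * s + x) :=
  B_shr (B_and h (B_ones (cell_lt (n := a + o) (by omega) hx))) (by show _ = a * s + _; ring)
theorem peel_S (hi : i < c) (hx : x < s) (h : B Y ((a + o + i) * s + x)) :
    B ((tc s d a o c).peel Y).y (i * s + x) :=
  B_and (B_shr h (by show _ = (a + o) * s + _; ring)) (B_ones (cell_lt hi hx))
theorem peel_D (h : B Y ((a + o + c + i) * s + x)) : B ((tc s d a o c).peel Y).z (i * s + x) :=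
  B_shr (B_shr (i := c * s + (i * s + x)) h (by show _ = (a + o) * s + _; ring)) rfl

end

end Pool.Agent.Lib.MP_fe5cb4_co.FC.Kempe
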