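import Pool.Agent.Lib.MP_fe5cb4_co.FCT.Defs
import Pool.Agent.Lib.MP_fe5cb4_co.FC.KSem

/-!
From consistent sets of ring words to the stack machine: the Kempe steps keep every word of a
consistent set alive.
-/

set_option autoImplicit false

namespace Pool.Agent.Lib.MP_fe5cb4_co.FC.Kempe

open Pool.Agent.FCT

section Stack

variable (r : ℕ) (l : ℕ → Rl) (μ : ℕ → ℕ)

/-- The letter at the position `p` after the flips `A`. -/
def ltr (A : ℕ → Bool) (p : ℕ) : Rl := (l p).map fun v => xor v (A p)

/-- The letters at the positions `i, …, i + n - 1`. -/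
def sfx (A : ℕ → Bool) (i n : ℕ) : List Rl := (List.range' i n).map (ltr l A)

/-- The letters on the stack. -/
def stk (A : ℕ → Bool) (st : List ℕ) : List Bool := st.map fun p => xor ((l p).getD false) (A p)

/-- Flip sets that are unions of arcs. -/
def Arc (A : ℕ → Bool) : Prop := ∀ p < r, l p ≠ none → A (μ p) = A p

/-- Change of a flip set on one arc. -/
def upd (A : ℕ → Bool) (i q : ℕ) (b : Bool) : ℕ → Bool := fun p => if p = i ∨ p = q then b else A p

variable {r l μ}

theorem sfx_succ (A : ℕ → Bool) (i n : ℕ) : sfx l A i (n + 1) = ltr l A i :: sfx l A (i + 1) n := by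
  simp [sfx, List.range'_succ]

theorem arc_zero : Arc r l μ fun _ => false := fun _ _ _ => rfl

theorem arc_upd (h : NC r (fun p => l p ≠ none) μ) {A : ℕ → Bool} (hA : Arc r l μ A) {i : ℕ}
    (hi : i < r) (hN : l i ≠ none) (b : Bool) : Arc r l μ (upd A i (μ i) b) := by
  intro p hp hn
  have h1 := h.1 p hp hn
  have h2 := h.1 i hi hN
  have e : (μ p = i ∨ μ p = μ i) ↔ (p = i ∨ p = μ i) := by
    constructor
    · rintro (e | e)
      · right; rw [← e, h1.2.2.2]
      · left; rw [← h1.2.2.2, e, h2.2.2.2]
    · rintro (e | e)
      · right; rw [e]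
      · left; rw [e, h2.2.2.2]
  unfold upd
  by_cases c : p = i ∨ p = μ i
  · rw [if_pos c, if_pos (e.2 c)]
  · rw [if_neg c, if_neg (fun x => c (e.1 x))]; exact hA p hp hn

theorem sfx_upd (A : ℕ → Bool) {i q j : ℕ} (b : Bool) (n : ℕ) (h1 : i < j) (h2 : q < j) :
    sfx l (upd A i q b) j n = sfx l A j n := by
  unfold sfx
  refine List.map_congr_left fun p hp => ?_
  have := (List.mem_range'_1.1 hp).1
  unfold ltr upd
  rw [if_neg (by omega)]

theorem stk_upd (A : ℕ → Bool) {i q : ℕ} (b : Bool) {st : List ℕ} (h : ∀ p ∈ st, p < q)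
    (h2 : q < i) : stk l (upd A i q b) st = stk l A st := by
  unfold stk
  refine List.map_congr_left fun p hp => ?_
  have := h p hp
  unfold upd
  rw [if_neg (by omega)]

theorem close_pair (h : NC r (fun p => l p ≠ none) μ) {i f n : ℕ} {v : Bool} {st : List ℕ}
    {g : List Bool → List Rl → Prop} (hi : i < r) (hv : l i = some v) (hlt : μ i < i)
    (hs : ∀ p ∈ st, p < μ i) (hf : f ≠ i ∧ f ≠ μ i)
    (H : ∀ A, Arc r l μ A → A f = false → g (stk l A (μ i :: st)) (sfx l A i (n + 1)))
    (A : ℕ → Bool) (hA : Arc r l μ A) (hAf : A f = false) :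
    g (xor ((l (μ i)).getD false) false :: stk l A st) (some v :: sfx l A (i + 1) n) ∧
      g ((!(xor ((l (μ i)).getD false) false)) :: stk l A st) (some (!v) :: sfx l A (i + 1) n) := by
  have hN : l i ≠ none := by simp [hv]
  have key : ∀ b, g (xor ((l (μ i)).getD false) b :: stk l A st)
      (some (xor v b) :: sfx l A (i + 1) n) := by
    intro b
    have := H _ (arc_upd h hA hi hN b) (by unfold upd; rw [if_neg (by omega)]; exact hAf)
    rw [sfx_succ, sfx_upd A b n (by omega) (by omega)] at this
    have e1 : stk l (upd A i (μ i) b) (μ i :: st) = xor ((l (μ i)).getD false) b :: stk l A st := by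
      rw [← stk_upd A b hs hlt]; simp [stk, upd]
    have e2 : ltr l (upd A i (μ i) b) i = some (xor v b) := by simp [ltr, upd, hv]
    rw [e1, e2] at this
    exact this
  refine ⟨by simpa using key false, by simpa using key true⟩

theorem top_eq (h : NC r (fun p => l p ≠ none) μ) {i t : ℕ} {st : List ℕ} (hi : i < r)
    (hN : l i ≠ none) (hs : ∀ p ∈ t :: st, p < i ∧ l p ≠ none ∧ i ≤ μ p)
    (hp : (t :: st).Pairwise (· > ·)) (hm : μ i ∈ t :: st) : t = μ i := by
  rcases List.mem_cons.1 hm with e | e
  · exact e.symm
  · have h1 := (List.pairwise_cons.1 hp).1 _ e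
    have h2 := hs t (by simp)
    have h3 := h.1 i hi hN
    have h4 := h.2 (μ i) h3.1 t (by omega) h3.2.1 h2.2.1 h1 (by rw [h3.2.2.2]; exact h2.1)
    rw [h3.2.2.2] at h4
    omega

theorem exZ (h : NC r (fun p => l p ≠ none) μ) (f : ℕ) : ∀ (n i : ℕ) (st : List ℕ)
    (g : List Bool → List Rl → Prop), i + n + 1 = r → f < i → μ f < i → l f ≠ none →
    (∀ p ∈ st, p < i ∧ l p ≠ none ∧ i ≤ μ p) → st.Pairwise (· > ·) →
    (∀ p < i, l p ≠ none → i ≤ μ p → p ∈ st) →
    (∀ A, Arc r l μ A → A f = false → g (stk l A st) (sfx l A i n)) →
    ExZ (sfx l (fun _ => false) i n) (stk l (fun _ => false) st) g := by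
  intro n
  induction n with
  | zero =>
    intro i st g hr hf hf' hN hs hp _ H
    match st, hs, hp, H with
    | [], _, _, H => exact H _ arc_zero rfl
    | [p], hs, _, H =>
      have h1 := hs p (by simp)
      have key : ∀ b, g [xor ((l p).getD false) b] [] := by
        intro b
        have := H _ (arc_upd h arc_zero (i := p) (by omega) h1.2.1 b) (by
          unfold upd
          rw [if_neg]
          rintro (e | e)
          · rw [e] at hf'; omega
          · omega)
        simpa [stk, sfx, upd] using this
      have k0 := key false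
      have k1 := key true
      show g [false] [] ∧ g [true] []
      cases hb : (l p).getD false <;> rw [hb] at k0 k1 <;> exact ⟨by assumption, by assumption⟩
    | p :: q :: st, hs, hp, _ =>
      have h1 := hs p (by simp)
      have h2 := hs q (by simp)
      have h3 := h.1 p (by omega) h1.2.1
      have h4 := h.1 q (by omega) h2.2.1
      have h5 := (List.pairwise_cons.1 hp).1 q (by simp)
      have e : μ p = μ q := by omega
      have : p = q := by rw [← h3.2.2.2, e, h4.2.2.2]
      omega
  | succ n ih =>
    intro i st g hr hf hf' hN hs hp hc H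
    have hi : i < r := by omega
    rw [sfx_succ]
    cases hv : l i with
    | none =>
      have e : ∀ A, ltr l A i = none := fun A => by simp [ltr, hv]
      rw [e]
      have := ih (i + 1) st (fun σ' e' => g σ' (none :: e')) (by omega) (by omega) (by omega) hN
        (fun p hp => by
          have h1 := hs p hp
          have h2 := h.1 p (by omega) h1.2.1
          have : μ p ≠ i := fun x => h2.2.1 (by rw [x]; exact hv)
          exact ⟨by omega, h1.2.1, by omega⟩) hp
        (fun p h1 h2 h3 => by
          have : p ≠ i := fun x => h2 (by rw [x]; exact hv)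
          exact hc p (by omega) h2 (by omega))
        (fun A hA hAf => by have := H A hA hAf; rwa [sfx_succ, e] at this)
      cases st <;> exact this
    | some v =>
      have hNi : l i ≠ none := by simp [hv]
      have hm := h.1 i hi hNi
      have e : ltr l (fun _ => false) i = some v := by simp [ltr, hv]
      rw [e]
      rcases Nat.lt_or_gt_of_ne hm.2.2.1 with c | c
      · have hq := hc (μ i) c hm.2.1 (by rw [hm.2.2.2])
        match st, hs, hp, hc, H, hq with
        | t :: st, hs, hp, hc, H, hq =>
          have ht := top_eq h hi hNi hs hp hq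
          subst ht
          have hp' := List.pairwise_cons.1 hp
          refine Or.inr (ih (i + 1) st _ (by omega) (by omega) (by omega) hN (fun p hp => ?_) hp'.2
            (fun p h1 h2 h3 => ?_) (close_pair h hi hv c hp'.1 ⟨by omega, fun x => ?_⟩ H))
          · have h1 := hs p (by simp [hp])
            have h2 := h.1 p (by omega) h1.2.1
            have h3 := hp'.1 p hp
            have : μ p ≠ i := fun x => by rw [← x, h2.2.2.2] at h3; omega
            exact ⟨by omega, h1.2.1, by omega⟩
          · have h4 : p ≠ i := fun x => by rw [x] at h3; omega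
            rcases List.mem_cons.1 (hc p (by omega) h2 (by omega)) with x | x
            · rw [x, hm.2.2.2] at h3; omega
            · exact x
          · rw [x, hm.2.2.2] at hf'; omega
      · have := ih (i + 1) (i :: st) (fun σ' e' => g σ'.tail (some (σ'.headD false) :: e'))
          (by omega) (by omega) (by omega) hN
          (fun p hp => by
            rcases List.mem_cons.1 hp with x | x
            · rw [x]; exact ⟨by omega, hNi, by omega⟩
            · have h1 := hs p x
              have h2 := h.1 p (by omega) h1.2.1
              have : μ p ≠ i := fun y => by rw [← y, h2.2.2.2] at c; omega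
              exact ⟨by omega, h1.2.1, by omega⟩)
          (List.pairwise_cons.2 ⟨fun p hp => (hs p hp).1, hp⟩)
          (fun p h1 h2 h3 => by
            by_cases x : p = i
            · simp [x]
            · exact List.mem_cons_of_mem _ (hc p (by omega) h2 (by omega)))
          (fun A hA hAf => by
            have := H A hA hAf
            rw [sfx_succ] at this
            simpa [stk, ltr, hv] using this)
        have e2 : stk l (fun _ => false) (i :: st) = v :: stk l (fun _ => false) st := by
          simp [stk, hv]
        rw [e2] at this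
        cases st with
        | nil => exact this
        | cons t st => exact Or.inl this

theorem exF (h : NC r (fun p => l p ≠ none) μ) (f : ℕ) : ∀ (n i : ℕ) (st : List ℕ)
    (g : List Bool → List Rl → Prop), i + n + 1 = r → f < i → i ≤ μ f → l f ≠ none →
    (∀ p ∈ st, f < p) → (∀ p ∈ st, p < i ∧ l p ≠ none ∧ i ≤ μ p) → st.Pairwise (· > ·) →
    (∀ p < i, l p ≠ none → i ≤ μ p → p ∈ st ∨ p = f) →
    (∀ A, Arc r l μ A → A f = false → g (stk l A st) (sfx l A i n)) →
    ExF (sfx l (fun _ => false) i n) (stk l (fun _ => false) st) g := by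
  intro n
  induction n with
  | zero =>
    intro i st g hr hf hf' hN hb hs hp _ H
    match st, hb, hs, H with
    | [], _, _, H => exact H _ arc_zero rfl
    | p :: st, hb, hs, _ =>
      have h1 := hs p (by simp)
      have h3 := h.1 p (by omega) h1.2.1
      have h4 := h.1 f (by omega) hN
      have h5 := hb p (by simp)
      have e : μ p = μ f := by omega
      have : p = f := by rw [← h3.2.2.2, e, h4.2.2.2]
      omega
  | succ n ih =>
    intro i st g hr hf hf' hN hb hs hp hc H
    have hi : i < r := by omega
    have hF := h.1 f (by omega) hN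
    rw [sfx_succ]
    cases hv : l i with
    | none =>
      have e : ∀ A, ltr l A i = none := fun A => by simp [ltr, hv]
      rw [e]
      have : μ f ≠ i := fun x => hF.2.1 (by rw [x]; exact hv)
      have := ih (i + 1) st (fun σ' e' => g σ' (none :: e')) (by omega) (by omega) (by omega) hN hb
        (fun p hp => by
          have h1 := hs p hp
          have h2 := h.1 p (by omega) h1.2.1
          have : μ p ≠ i := fun x => h2.2.1 (by rw [x]; exact hv)
          exact ⟨by omega, h1.2.1, by omega⟩) hp
        (fun p h1 h2 h3 => by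
          have : p ≠ i := fun x => h2 (by rw [x]; exact hv)
          exact hc p (by omega) h2 (by omega))
        (fun A hA hAf => by have := H A hA hAf; rwa [sfx_succ, e] at this)
      cases st <;> exact this
    | some v =>
      have hNi : l i ≠ none := by simp [hv]
      have hm := h.1 i hi hNi
      have e : ltr l (fun _ => false) i = some v := by simp [ltr, hv]
      rw [e]
      rcases Nat.lt_or_gt_of_ne hm.2.2.1 with c | c
      · rcases hc (μ i) c hm.2.1 (by rw [hm.2.2.2]) with hq | hq
        · match st, hb, hs, hp, hc, H, hq with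
          | t :: st, hb, hs, hp, hc, H, hq =>
            have ht := top_eq h hi hNi hs hp hq
            subst ht
            have hp' := List.pairwise_cons.1 hp
            have hb' := hb (μ i) (by simp)
            have hfi : μ f ≠ i := fun x => by rw [← x, hF.2.2.2] at hb'; omega
            refine Or.inr (ih (i + 1) st _ (by omega) (by omega) (by omega) hN
              (fun p hp => hb p (by simp [hp])) (fun p hp => ?_) hp'.2
              (fun p h1 h2 h3 => ?_) (close_pair h hi hv c hp'.1 ⟨by omega, by omega⟩ H))
            · have h1 := hs p (by simp [hp])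
              have h2 := h.1 p (by omega) h1.2.1
              have h3 := hp'.1 p hp
              have : μ p ≠ i := fun x => by rw [← x, h2.2.2.2] at h3; omega
              exact ⟨by omega, h1.2.1, by omega⟩
            · have h4 : p ≠ i := fun x => by rw [x] at h3; omega
              rcases hc p (by omega) h2 (by omega) with x | x
              · rcases List.mem_cons.1 x with x | x
                · rw [x, hm.2.2.2] at h3; omega
                · exact Or.inl x
              · exact Or.inr x
        · have hfi : μ f = i := by rw [← hq, hm.2.2.2]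
          match st, hb, hs, hc, H with
          | t :: st, hb, hs, _, _ =>
            have h1 := hs t (by simp)
            have h2 := h.2 f (by omega) t (by omega) hN h1.2.1 (hb t (by simp)) (by omega)
            omega
          | [], _, _, hc, H =>
            refine Or.inr (exZ h f n (i + 1) [] _ (by omega) (by omega) (by omega) hN (by simp)
              List.Pairwise.nil (fun p h1 h2 h3 => ?_) fun A hA hAf => ?_)
            · have h4 : p ≠ i := fun x => by rw [x] at h3; omega
              rcases hc p (by omega) h2 (by omega) with x | x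
              · exact x
              · rw [x] at h3; omega
            · have h1 := H A hA hAf
              have h2 := hA f (by omega) hN
              rw [hfi, hAf] at h2
              rw [sfx_succ] at h1
              simpa [stk, ltr, hv, h2] using h1
      · have hfi : μ f ≠ i := fun x => by rw [← x, hF.2.2.2] at c; omega
        have := ih (i + 1) (i :: st) (fun σ' e' => g σ'.tail (some (σ'.headD false) :: e'))
          (by omega) (by omega) (by omega) hN
          (fun p hp => by
            rcases List.mem_cons.1 hp with x | x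
            · omega
            · exact hb p x)
          (fun p hp => by
            rcases List.mem_cons.1 hp with x | x
            · rw [x]; exact ⟨by omega, hNi, by omega⟩
            · have h1 := hs p x
              have h2 := h.1 p (by omega) h1.2.1
              have : μ p ≠ i := fun y => by rw [← y, h2.2.2.2] at c; omega
              exact ⟨by omega, h1.2.1, by omega⟩)
          (List.pairwise_cons.2 ⟨fun p hp => (hs p hp).1, hp⟩)
          (fun p h1 h2 h3 => by
            by_cases x : p = i
            · simp [x]
            · exact (hc p (by omega) h2 (by omega)).imp (List.mem_cons_of_mem _) id)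
          (fun A hA hAf => by
            have := H A hA hAf
            rw [sfx_succ] at this
            simpa [stk, ltr, hv] using this)
        have e2 : stk l (fun _ => false) (i :: st) = v :: stk l (fun _ => false) st := by
          simp [stk, hv]
        rw [e2] at this
        cases st with
        | nil => exact Or.inl this
        | cons t st => exact Or.inl this

theorem exU (h : NC r (fun p => l p ≠ none) μ) : ∀ (n i : ℕ) (g : List Rl → Prop),
    i + n + 1 = r → (∀ p < i, l p = none) → (∀ A, Arc r l μ A → g (sfx l A i n)) →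
    ExU (sfx l (fun _ => false) i n) g := by
  intro n
  induction n with
  | zero => intro i g _ _ H; exact H _ arc_zero
  | succ n ih =>
    intro i g hr hc H
    have H0 := H _ arc_zero
    rw [sfx_succ] at H0 ⊢
    cases hv : l i with
    | none =>
      have e : ∀ A, ltr l A i = none := fun A => by simp [ltr, hv]
      rw [e]
      refine ih (i + 1) (fun e' => g (none :: e')) (by omega) (fun p hp => ?_) fun A hA => ?_
      · by_cases x : p = i
        · rw [x]; exact hv
        · exact hc p (by omega)
      · have := H A hA
        rwa [sfx_succ, e] at this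
    | some v =>
      have hNi : l i ≠ none := by simp [hv]
      have hm := h.1 i (by omega) hNi
      have e : ltr l (fun _ => false) i = some v := by simp [ltr, hv]
      rw [e] at H0 ⊢
      cases v with
      | true => exact H0
      | false =>
        have h1 : ¬ μ i < i := fun x => hm.2.1 (hc _ x)
        have h2 := hm.2.2.1
        refine exF h i n (i + 1) [] _ (by omega) (by omega) (by omega) hNi (by simp) (by simp)
          List.Pairwise.nil (fun p h3 h4 _ => Or.inr ?_) fun A hA hAf => ?_
        · by_contra x
          exact h4 (hc p (by omega))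
        · have := H A hA
          rw [sfx_succ] at this
          simpa [ltr, hv, hAf] using this

end Stack

/-- The digit of a colour. -/
def dig (x : K) : ℕ := if x = (1, 0) then 0 else if x = (0, 1) then 1 else 2

/-- The index of a ring word. -/
def idx (r : ℕ) (κ : ℕ → K) : ℕ := cd ((List.range' 1 (r - 2)).map fun p => dig (κ p))

/-- The bit set `L` holds all the normalised words of `C`. -/
def Inv (r : ℕ) (C : Set (ℕ → K)) (L : ℕ) : Prop :=
  ∀ κ ∈ C, dig (κ 0) = 0 → L.testBit (idx r κ) = true

/-- The kept colour. -/
def kept (th : Bool) : K := cond th (0, 1) (1, 0)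

/-- The letter of a colour. -/
def toRl (th : Bool) (x : K) : Rl := if x = kept th then none else some (decide (x = (1, 1)))

theorem toRl_ne (th : Bool) (x : K) : toRl th x ≠ none ↔ x ≠ kept th := by
  unfold toRl; by_cases c : x = kept th <;> simp [c]

theorem dv_flip : ∀ (th : Bool) (x : K) (b : Bool), x ≠ 0 →
    dv th ((toRl th x).map fun v => xor v b) =
      dig (if x ≠ kept th ∧ b = true then x + kept th else x) := by decide

theorem idx_flip {r : ℕ} (th : Bool) {κ : ℕ → K} (hne : ∀ p < r, κ p ≠ 0) (A : ℕ → Bool) :
    cd ((sfx (fun p => toRl th (κ p)) A 1 (r - 2)).map (dv th)) =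
      idx r fun p => if κ p ≠ kept th ∧ A p = true then κ p + kept th else κ p := by
  unfold idx sfx
  rw [List.map_map]
  congr 1
  refine List.map_congr_left fun p hp => ?_
  have := List.mem_range'_1.1 hp
  exact dv_flip th (κ p) (A p) (hne p (by omega))

theorem idx_self {r : ℕ} (th : Bool) {κ : ℕ → K} (hne : ∀ p < r, κ p ≠ 0) :
    cd ((sfx (fun p => toRl th (κ p)) (fun _ => false) 1 (r - 2)).map (dv th)) = idx r κ := by
  rw [idx_flip th hne]; simp

theorem dig_zero : ∀ x : K, dig x = 0 ↔ x = (1, 0) := by decide

variable {r : ℕ} {C : Set (ℕ → K)} {a b w : ℕ → ℕ} {L : ℕ}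

theorem kempe_rl (hC : Consistent r C) {κ : ℕ → K} (hκ : κ ∈ C) (th : Bool) :
    ∃ μ, NC r (fun p => toRl th (κ p) ≠ none) μ ∧ ∀ A, Arc r (fun p => toRl th (κ p)) μ A →
      (fun p => if κ p ≠ kept th ∧ A p = true then κ p + kept th else κ p) ∈ C := by
  obtain ⟨μ, h1, h2⟩ := hC.kempe κ hκ (kept th) (by cases th <;> decide)
  refine ⟨μ, ?_, fun A hA => h2 A fun p hp hn => hA p hp ((toRl_ne _ _).2 hn)⟩
  simpa only [toRl_ne] using h1

theorem inv_a (hC : Consistent r C) (hr : 2 ≤ r) (S : Steps (r - 2) a b w) (h : Inv r C L) :
    Inv r C (a L) := by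
  intro κ hκ h0
  obtain ⟨μ, h1, h2⟩ := kempe_rl hC hκ false
  have hne := hC.ne κ hκ
  have e0 := (dig_zero _).1 h0
  rw [← idx_self false hne]
  refine S.ha L (fun e => L.testBit (cd (e.map (dv false))) = true) (fun _ _ x => x) _
    (by simp [sfx]) (exU h1 (r - 2) 1 _ (by omega) (fun p hp => ?_) fun A hA => ?_)
  · have : p = 0 := by omega
    simp [this, e0, toRl, kept]
  · rw [idx_flip false hne]
    refine h _ (h2 A hA) ?_
    simp [e0, kept, dig]

theorem inv_b (hC : Consistent r C) (hr : 2 ≤ r) (S : Steps (r - 2) a b w) (h : Inv r C L) :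
    Inv r C (b L) := by
  intro κ hκ h0
  obtain ⟨μ, h1, h2⟩ := kempe_rl hC hκ true
  have hne := hC.ne κ hκ
  have e0 := (dig_zero _).1 h0
  have hN : toRl true (κ 0) ≠ none := by rw [e0]; decide
  have hm := (h1.1 0 (by omega) hN).2.2.1
  rw [← idx_self true hne]
  refine S.hb L (fun e => L.testBit (cd (e.map (dv true))) = true) (fun _ _ x => x) _
    (by simp [sfx]) (exF h1 0 (r - 2) 1 [] _ (by omega) (by omega) (by omega) hN (by simp) (by simp)
      List.Pairwise.nil (fun p hp _ _ => Or.inr (by omega)) fun A hA hA0 => ?_)
  rw [idx_flip true hne]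
  refine h _ (h2 A hA) ?_
  simp [hA0, h0]

/-- The exchange of the colours with the digits `1` and `2`. -/
def swp : K ≃+ K where
  toFun x := (x.1 + x.2, x.2)
  invFun x := (x.1 + x.2, x.2)
  left_inv := by decide
  right_inv := by decide
  map_add' := by decide

theorem sd_dig : ∀ x : K, x ≠ 0 → sd (dig (swp x)) = dig x ∧ dig (swp x) < 3 := by decide

theorem inv_w (hC : Consistent r C) (S : Steps (r - 2) a b w) (h : Inv r C L) : Inv r C (w L) := by
  intro κ hκ h0
  have hne := hC.ne κ hκ
  have h1 := h _ (hC.perm κ hκ swp) (by rw [(dig_zero _).1 h0]; decide)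
  have h2 := S.hw L _ (by simp) (fun v hv => by
    obtain ⟨p, hp, rfl⟩ := List.mem_map.1 hv
    have := List.mem_range'_1.1 hp
    exact (sd_dig _ (hne p (by omega))).2) h1
  rw [List.map_map] at h2
  have e : (List.range' 1 (r - 2)).map (sd ∘ fun p => dig (swp (κ p))) =
      (List.range' 1 (r - 2)).map fun p => dig (κ p) := by
    refine List.map_congr_left fun p hp => ?_
    have := List.mem_range'_1.1 hp
    exact (sd_dig _ (hne p (by omega))).1
  rw [e] at h2
  exact h2

theorem inv_land {M : ℕ} (h : Inv r C L) (h' : Inv r C M) : Inv r C (L.land M) := by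
  intro κ hκ h0
  have : (L &&& M).testBit (idx r κ) = true := by
    rw [Nat.testBit_and, h κ hκ h0, h' κ hκ h0]; rfl
  exact this

theorem bridge_a (hC : Consistent r C) (hr : 2 ≤ r) (S : Steps (r - 2) a b w) (h : Inv r C L) :
    Inv r C ((L.land (a L)).land (w (a L))) :=
  inv_land (inv_land h (inv_a hC hr S h)) (inv_w hC S (inv_a hC hr S h))

theorem bridge_b (hC : Consistent r C) (hr : 2 ≤ r) (S : Steps (r - 2) a b w) (h : Inv r C L) :
    Inv r C ((L.land (b L)).land (w (b L))) :=
  inv_land (inv_land h (inv_b hC hr S h)) (inv_w hC S (inv_b hC hr S h))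

theorem exists_norm : ∀ x : K, x ≠ 0 → ∃ σ : K ≃+ K, σ x = (1, 0) := by
  intro x hx
  have h : x = (1, 0) ∨ x = (0, 1) ∨ x = (1, 1) := by revert x; decide
  rcases h with rfl | rfl | rfl
  · exact ⟨AddEquiv.refl _, rfl⟩
  · exact ⟨AddEquiv.prodComm, rfl⟩
  · exact ⟨swp.trans AddEquiv.prodComm, by decide⟩

theorem ext_perm {W : List (ℕ × List ℕ)} {R : List ℕ} {X : List (ℕ × ℕ)} {κ : ℕ → K}
    (σ : K ≃+ K) (h : Ext W R X κ) : Ext W R X fun p => σ (κ p) := by
  obtain ⟨c, h1, h2⟩ := h
  refine ⟨fun v => σ (c v), fun x y hxy => ?_, fun p hp => ?_⟩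
  · rw [← h1 x y hxy]; exact σ.injective.eq_iff
  · show σ (κ p) = _
    rw [h2 p hp, map_add]

/-- The final step: `L0` holds the valid words that do not extend, `f` keeps consistent sets, `R`
holds the valid words that extend with the contract. -/
theorem red_of_inv (S : Cfg) (hr : 1 ≤ S.ring.length) (L0 L R : ℕ)
    (h0 : ∀ κ : ℕ → K, (∀ p < S.ring.length, κ p ≠ 0) → ∑ p ∈ Finset.range S.ring.length, κ p = 0 →
      dig (κ 0) = 0 → ¬ Ext S.whl S.ring [] κ → L0.testBit (idx S.ring.length κ) = true)
    (hf : ∀ C, Consistent S.ring.length C → Inv S.ring.length C L0 → Inv S.ring.length C L)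
    (hR : ∀ κ : ℕ → K, (∀ p < S.ring.length, κ p ≠ 0) → ∑ p ∈ Finset.range S.ring.length, κ p = 0 →
      dig (κ 0) = 0 → Ext S.whl S.ring S.con κ → R.testBit (idx S.ring.length κ) = true)
    (hz : L.land R = 0) : Red S := by
  intro C hC hE κ hκ hx
  obtain ⟨σ, hσ⟩ := exists_norm (κ 0) (hC.ne κ hκ 0 (by omega))
  have hκ' := hC.perm κ hκ σ
  have hd : dig (σ (κ 0)) = 0 := (dig_zero _).2 hσ
  have h1 := hf C hC (fun κ' h' d => h0 κ' (hC.ne κ' h') (hC.sum κ' h') d (hE κ' h')) _ hκ' hd
  have h2 := hR _ (hC.ne _ hκ') (hC.sum _ hκ') hd (ext_perm σ hx)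
  have h3 : (L &&& R).testBit (idx S.ring.length fun p => σ (κ p)) = true := by
    rw [Nat.testBit_and, h1, h2]; rfl
  have h4 : L &&& R = 0 := hz
  rw [h4, Nat.zero_testBit] at h3
  exact Bool.false_ne_true h3

/-- The same when no word is left. -/
theorem red_of_zero (S : Cfg) (hr : 1 ≤ S.ring.length) (L0 : ℕ)
    (h0 : ∀ κ : ℕ → K, (∀ p < S.ring.length, κ p ≠ 0) → ∑ p ∈ Finset.range S.ring.length, κ p = 0 →
      dig (κ 0) = 0 → ¬ Ext S.whl S.ring [] κ → L0.testBit (idx S.ring.length κ) = true)
    (hf : ∀ C, Consistent S.ring.length C → Inv S.ring.length C L0 → Inv S.ring.length C 0) :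
    Red S := by
  intro C hC hE κ hκ _
  obtain ⟨σ, hσ⟩ := exists_norm (κ 0) (hC.ne κ hκ 0 (by omega))
  have h1 := hf C hC (fun κ' h' d => h0 κ' (hC.ne κ' h') (hC.sum κ' h') d (hE κ' h')) _
    (hC.perm κ hκ σ) ((dig_zero _).2 hσ)
  rw [Nat.zero_testBit] at h1
  exact Bool.false_ne_true h1

end Pool.Agent.Lib.MP_fe5cb4_co.FC.Kempe
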