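import Pool.Agent.Lib.MP_fe5cb4_co.FC.KRun

/-!
Checkpoints: a long run of Kempe steps is cut into several theorems.
-/

namespace Pool.Agent.Lib.MP_fe5cb4_co.FC.Kempe

open Pool.Agent.FCT

/-- Every consistent set held by `L` is held by `M`. -/
def Keeps (r L M : ℕ) : Prop := ∀ C : Set (ℕ → K), Consistent r C → Inv r C L → Inv r C M

theorem Keeps.trans {r L M N : ℕ} (h1 : Keeps r L M) (h2 : Keeps r M N) : Keeps r L N :=
  fun C hC h => h2 C hC (h1 C hC h)

/-- the result of the run is a subset of `M` -/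
noncomputable def ckB (k n p L M : ℕ) : Bool := Nat.beq ((run k n p L).lor M) M

theorem keeps_of_ck (r n p L M : ℕ) (hr : 2 ≤ r) (h : ckB (r - 2) n p L M = true) : Keeps r L M := by
  intro C hC hL κ hκ h0
  have h1 := run_Inv hC hr n p L hL κ hκ h0
  have h2 : (run (r - 2) n p L).lor M = M := Nat.eq_of_beq_eq_true h
  rw [← h2, Nat.lor_eq, Nat.testBit_or, h1]
  rfl

theorem keeps_run (r n p L : ℕ) (hr : 2 ≤ r) : Keeps r L (run (r - 2) n p L) :=
  fun _ hC h => run_Inv hC hr n p L h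

end Pool.Agent.Lib.MP_fe5cb4_co.FC.Kempe
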