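import Pool.Agent.Lib.MP_fe5cb4_co.FC.KTree

/-!
The bit-parallel Kempe steps do what the stack machine says.
-/

namespace Pool.Agent.Lib.MP_fe5cb4_co.FC.Kempe

noncomputable section

def V (l : List T) (σ : List Bool) : Nat := (sub (nt l σ.length) σ).w

def cw (th : Bool) (e : List Rl) : Nat := cd (e.map (dv th))

theorem cw_cons (th : Bool) (v : Rl) (e : List Rl) : cw th (v :: e) = dv th v * 3 ^ e.length + cw th e := by
  simp [cw, cd]

theorem dv_le (th : Bool) (v : Rl) : dv th v ≤ 2 := by
  cases th <;> rcases v with _ | _ | _ <;> simp [dv]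

theorem cw_lt (th : Bool) : ∀ e : List Rl, cw th e < 3 ^ e.length
  | [] => by simp [cw, cd]
  | v :: e => by
    have := cw_lt th e
    have h := Nat.mul_le_mul_right (3 ^ e.length) (dv_le th v)
    rw [cw_cons, List.length_cons, Nat.pow_succ]
    omega

theorem idx_cons (th : Bool) (b : Nat) (v : Rl) {e : List Rl} {k : Nat} (h : e.length = k) :
    b * 3 ^ (k + 1) + cw th (v :: e) = b * (3 * 3 ^ k) + dv th v * 3 ^ k + cw th e := by
  rw [cw_cons, h]; ring

abbrev G : Type := List Bool → List Rl → Prop

/-- the cell `b` of the states in `X` holds `g` -/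
def Has (th : Bool) (k : Nat) (X : List T) (d b : Nat) (g : G) : Prop :=
  ∀ σ' e', σ'.length = d → e'.length = k → g σ' e' → B (V X σ') (b * 3 ^ k + cw th e')

def Sd (th : Bool) (k : Nat) (ws : List Nat) (X Y : List T) (Ex : List Rl → List Bool → G → Prop) : Prop :=
  ∀ e, e.length = k → ∀ σ g b, b < nn ws σ.length → Has th k X σ.length b g → Ex e σ g →
    B (V Y σ) (b * 3 ^ k + cw th e)

theorem E_bit {th : Bool} {s b x : Nat} {ws : List Nat} {X : List T} {σ : List Bool} {v : Rl}
    (hb : b < nn ws σ.length) (hx : x < s) (h : B (V X σ) (b * (3 * s) + dv th v * s + x)) :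
    B (fld v (sub (nt (lanes (mkS th s ws 0) X) σ.length) σ)) (nx (nn ws σ.length) b * s + x) := by
  rw [nt_lanes th s ws 0 X _ (Nat.zero_lt_of_lt hb), sub_map1 _ _ _ (B_ne h)]
  exact lane_bit hb hx h

theorem P_eq {s o : Nat} {nw ws : List Nat} {Y : List T} {σ : List Bool} {j : Nat} (h0 : 0 < nn nw σ.length)
    (h : B (V Y σ) j) : sub (nt (peels (mkT s nw 0 o ws) Y) σ.length) σ =
      (tc s (0 + σ.length).pred (nn ws σ.length) (po o ws σ.length) (nn ws (σ.length + 1))).peel (V Y σ) := by
  rw [nt_peels s nw 0 o ws Y _ h0, sub_map1 _ _ _ (B_ne h)]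
  rfl

theorem U_bit {th : Bool} {s b x ca cb : Nat} {ws : List Nat} {P : List T} {σ : List Bool} {v : Rl}
    (hb : b < nn ws σ.length) (hx : x < s)
    (h : B (pick v (sub (nt P σ.length) σ).w
      ((sub (nt P (σ.length + 1)) (false :: σ)).x.lor (back ca cb P false σ))
      ((sub (nt P (σ.length + 1)) (true :: σ)).x.lor (back ca cb P true σ))) (nx (nn ws σ.length) b * s + x)) :
    B (V (ups0 (mkS th s ws 0) ca cb P) σ) (b * (3 * s) + dv th v * s + x) := by
  obtain ⟨e, he⟩ := sub_ups0 th s ws ca cb P σ (Nat.zero_lt_of_lt hb)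
  unfold V
  rw [he]
  exact unl_bit hb hx h

section
variable {th : Bool} {k c o I ca cb : Nat} {ws : List Nat} {X Y : List T} {Ex : List Rl → List Bool → G → Prop}
  (hp : Pos ws)
  (ih : Sd th k (nextW c o ws) (down0 (mkT (3 ^ k) (nextW c o ws) 0 o ws) I (lanes (mkS th (3 ^ k) ws 0) X)) Y Ex)
  (fs : ∀ e σ g, e.length = k → Ex e σ g → σ.length < c)
  {e : List Rl} (he : e.length = k)
include hp ih fs he

theorem stepL {σ : List Bool} {g : G} {b : Nat} (hb : b < nn ws σ.length) (hX : Has th (k + 1) X σ.length b g)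
    (h : Ex e σ fun σ' e' => g σ' (none :: e')) :
    B (V (ups0 (mkS th (3 ^ k) ws 0) ca cb (peels (mkT (3 ^ k) (nextW c o ws) 0 o ws) Y)) σ)
      (b * 3 ^ (k + 1) + cw th (none :: e)) := by
  have hw := nextW_nn c o ws σ.length hp (fs _ _ _ he h) (by omega)
  have hn := nx_lt hb
  have hx : cw th e < 3 ^ k := he ▸ cw_lt th e
  have hY := ih e he σ _ (nx (nn ws σ.length) b) (by omega) (fun σ' e' h1 h2 h3 => by
    have h4 := hX σ' (none :: e') h1 (by simp [h2]) h3
    rw [idx_cons th b none h2] at h4
    unfold V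
    rw [sub_down0 _ _ _ _ _ _ _ (by rw [h1]; omega), ← h1]
    exact cat_L (E_bit (v := none) (h1 ▸ hb) (h2 ▸ cw_lt th e') h4)) h
  rw [idx_cons th b none he]
  refine U_bit hb hx ?_
  show B (sub (nt _ σ.length) σ).w _
  rw [P_eq (by omega) hY]
  exact peel_L hn hx hY

theorem stepO {σ : List Bool} {g : G} {b : Nat} {v : Bool} (hb : b < nn ws σ.length)
    (hX : Has th (k + 1) X σ.length b g)
    (h : Ex e (v :: σ) fun σ' e' => g σ'.tail (some (σ'.headD false) :: e')) :
    B (V (ups0 (mkS th (3 ^ k) ws 0) ca cb (peels (mkT (3 ^ k) (nextW c o ws) 0 o ws) Y)) σ)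
      (b * 3 ^ (k + 1) + cw th (some v :: e)) := by
  have hpo : po o ws (σ.length + 1) = nn ws σ.length := rfl
  have hw := nextW_nn c o ws (σ.length + 1) hp (fs _ _ _ he h) (by omega)
  have hn := nx_lt hb
  have hx : cw th e < 3 ^ k := he ▸ cw_lt th e
  have hY := ih e he (v :: σ) _ (nn ws (σ.length + 1) + nx (nn ws σ.length) b)
    (by rw [List.length_cons]; omega) (fun σ' e' h1 h2 h3 => by
    cases σ' with
    | nil => simp at h1
    | cons t σ' =>
      have h0 : σ'.length = σ.length := by simpa using h1
      have h4 := hX σ' (some t :: e') h0 (by simp [h2]) h3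
      rw [idx_cons th b (some t) h2] at h4
      unfold V
      rw [sub_down0 _ _ _ _ _ _ _ (by rw [List.length_cons, h0]; omega), ← h0]
      exact cat_O (E_bit (v := some t) (h0 ▸ hb) (h2 ▸ cw_lt th e') h4)) h
  rw [idx_cons th b (some v) he]
  refine U_bit hb hx ?_
  have hP := P_eq (s := 3 ^ k) (o := o) (nw := nextW c o ws) (ws := ws) (by rw [List.length_cons]; omega) hY
  have hB := peel_O (d := (0 + (v :: σ).length).pred) (c := nn ws ((v :: σ).length + 1))
    (a := nn ws (v :: σ).length) (o := po o ws (v :: σ).length) hn hx hY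
  rw [← hP] at hB
  cases v
  · exact B_orl hB
  · exact B_orl hB

theorem stepC {σ : List Bool} {g : G} {b : Nat} {t v : Bool} (hb : b < nn ws (σ.length + 1))
    (hX : Has th (k + 1) X (σ.length + 1) b g)
    (h : Ex e σ fun σ' e' => g (t :: σ') (some v :: e') ∧ g ((!t) :: σ') (some (!v) :: e')) :
    B (V (ups0 (mkS th (3 ^ k) ws 0) ca cb (peels (mkT (3 ^ k) (nextW c o ws) 0 o ws) Y)) (t :: σ))
      (b * 3 ^ (k + 1) + cw th (some v :: e)) := by
  have h0 := hp σ.length (Nat.zero_lt_of_lt hb)
  have hw := nextW_nn c o ws σ.length hp (fs _ _ _ he h) (by omega)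
  have hn := nx_lt hb
  have hx : cw th e < 3 ^ k := he ▸ cw_lt th e
  have hY := ih e he σ _ (nn ws σ.length + po o ws σ.length + cond (t == v) 0 (nn ws (σ.length + 1)) +
      nx (nn ws (σ.length + 1)) b) (by cases t == v <;> simp <;> omega) (fun σ' e' h1 h2 h3 => by
    have h4 := hX (t :: σ') (some v :: e') (by simp [h1]) (by simp [h2]) h3.1
    have h5 := hX ((!t) :: σ') (some (!v) :: e') (by simp [h1]) (by simp [h2]) h3.2
    rw [idx_cons th b _ h2] at h4 h5
    have h6 := E_bit (ws := ws) (σ := t :: σ') (by rw [List.length_cons, h1]; exact hb) (h2 ▸ cw_lt th e') h4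
    have h7 := E_bit (ws := ws) (σ := (!t) :: σ') (by rw [List.length_cons, h1]; exact hb) (h2 ▸ cw_lt th e') h5
    unfold V
    rw [sub_down0 _ _ _ _ _ _ _ (by rw [h1]; omega), ← h1]
    cases t <;> cases v
    · exact cat_S (B_and h6 h7)
    · exact cat_D (B_and h6 h7)
    · exact cat_D (B_and h7 h6)
    · exact cat_S (B_and h7 h6)) h
  rw [idx_cons th b (some v) he]
  refine U_bit (σ := t :: σ) hb hx ?_
  have hP := P_eq (s := 3 ^ k) (o := o) (nw := nextW c o ws) (ws := ws) (by omega) hY
  cases t <;> cases v
  · refine B_orr ?_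
    show B (sub (nt _ σ.length) σ).y _
    rw [hP]; exact peel_S hn hx hY
  · refine B_orr ?_
    show B (sub (nt _ σ.length) σ).z _
    rw [hP]; exact peel_D hY
  · refine B_orr ?_
    show B (sub (nt _ σ.length) σ).z _
    rw [hP]; exact peel_D hY
  · refine B_orr ?_
    show B (sub (nt _ σ.length) σ).y _
    rw [hP]; exact peel_S hn hx hY

theorem stepI {g : List Rl → Prop} {i : Nat} (hi : i < o)
    (hI : ∀ e', e'.length = k → g e' → B I (i * 3 ^ k + cw th e')) (h : Ex e [] fun _ e' => g e') :
    B (hd (peels (mkT (3 ^ k) (nextW c o ws) 0 o ws) Y)).x (i * 3 ^ k + cw th e) := by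
  have hpo : po o ws 0 = o := rfl
  have hw := nextW_nn c o ws 0 hp (fs _ _ _ he h) (by omega)
  have hx : cw th e < 3 ^ k := he ▸ cw_lt th e
  have hY := ih e he [] _ (nn ws 0 + i) (by rw [List.length_nil]; omega) (fun σ' e' h1 h2 h3 => by
    obtain rfl : σ' = [] := List.eq_nil_of_length_eq_zero h1
    unfold V
    rw [sub_down0 _ _ _ _ _ _ _ (by rw [List.length_nil]; omega)]
    exact cat_O (hI e' h2 h3)) h
  have hP := P_eq (s := 3 ^ k) (o := o) (nw := nextW c o ws) (ws := ws) (by rw [List.length_nil]; omega) hY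
  show B (sub (nt _ ([] : List Bool).length) []).x _
  rw [hP]
  exact peel_O hi hx hY

end

theorem ExZ_len : ∀ (e : List Rl) (σ : List Bool) (g : G), ExZ e σ g → σ.length ≤ e.length + 1
  | [], [], _, _ => by simp
  | [], [_], _, _ => by simp
  | [], _ :: _ :: _, _, h => h.elim
  | none :: e, σ, _, h => by
    have := ExZ_len e σ _ (by simpa only [ExZ] using h)
    simp only [List.length_cons]; omega
  | some _ :: _, [], _, _ => by simp
  | some _ :: e, _ :: σ, _, h => by
    rcases h with h | h
    · have := ExZ_len e _ _ h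
      simp only [List.length_cons] at *; omega
    · have := ExZ_len e _ _ h
      simp only [List.length_cons] at *; omega

theorem ExF_len : ∀ (e : List Rl) (σ : List Bool) (g : G), ExF e σ g → σ.length ≤ e.length
  | [], [], _, _ => by simp
  | [], _ :: _, _, h => h.elim
  | none :: e, σ, _, h => by
    have := ExF_len e σ _ (by simpa only [ExF] using h)
    simp only [List.length_cons]; omega
  | some _ :: _, [], _, _ => by simp
  | some _ :: e, _ :: σ, _, h => by
    rcases h with h | h
    · have := ExF_len e _ _ h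
      simp only [List.length_cons] at *; omega
    · have := ExF_len e _ _ h
      simp only [List.length_cons] at *; omega

theorem dp_succ (th : Bool) (uw k : Nat) (wF wZ : List Nat) (U : Nat) (F Z : List T) :
    dp (plan th uw (k + 1) wF wZ) U F Z =
      level1 (dp (plan th uw k (nextW (k + 1) uw wF) (nextW (k + 2) (hn wF * 2) wZ))) (3 ^ k) (ones (3 ^ k))
        ((ones (3 ^ k)).shiftLeft (3 ^ k * 2)) (hn wF * 3 ^ k) (ones (hn wF * 3 ^ k))
        (mkS th (3 ^ k) wF 0) (mkS th (3 ^ k) wZ 0) (mkT (3 ^ k) (nextW (k + 1) uw wF) 0 uw wF)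
        (mkT (3 ^ k) (nextW (k + 2) (hn wF * 2) wZ) 0 (hn wF * 2) wZ) U
        (lanes (mkS th (3 ^ k) wF 0) F) (lanes (mkS th (3 ^ k) wZ 0) Z) := rfl

theorem dp_sound (th : Bool) (uw : Nat) : ∀ (k : Nat) (wF wZ : List Nat) (U : Nat) (F Z : List T),
    Pos wF → Pos wZ →
    Sd th k wZ Z (dp (plan th uw k wF wZ) U F Z).z ExZ ∧ Sd th k wF F (dp (plan th uw k wF wZ) U F Z).f ExF ∧
      (th = false → uw = 1 → ∀ e, e.length = k → ∀ g : List Rl → Prop,
        (∀ e', e'.length = k → g e' → B U (cw th e')) → ExU e g → B (dp (plan th uw k wF wZ) U F Z).u (cw th e))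
  | 0, wF, wZ, U, F, Z, _, _ => by
    refine ⟨fun e he σ g b _ hX h => ?_, fun e he σ g b _ hX h => ?_, fun _ _ e he g hU h => ?_⟩ <;>
      obtain rfl : e = [] := List.eq_nil_of_length_eq_zero he
    · match σ, hX, h with
      | [], hX, h => exact hX [] [] rfl rfl h
      | [false], hX, h => exact B_and (hX [false] [] rfl rfl h.1) (hX [true] [] rfl rfl h.2)
      | [true], hX, h => exact B_and (hX [false] [] rfl rfl h.1) (hX [true] [] rfl rfl h.2)
      | _ :: _ :: _, _, h => exact h.elim
    · match σ, hX, h with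
      | [], hX, h => exact hX [] [] rfl rfl h
      | _ :: _, _, h => exact h.elim
    · exact hU [] rfl h
  | k + 1, wF, wZ, U, F, Z, hF, hZ => by
    obtain ⟨iZ, iF, iU⟩ := dp_sound th uw k (nextW (k + 1) uw wF) (nextW (k + 2) (hn wF * 2) wZ)
      (U.land (ones (3 ^ k)))
      (down0 (mkT (3 ^ k) (nextW (k + 1) uw wF) 0 uw wF) ((U.shiftRight (3 ^ k)).land (ones (3 ^ k)))
        (lanes (mkS th (3 ^ k) wF 0) F))
      (down0 (mkT (3 ^ k) (nextW (k + 2) (hn wF * 2) wZ) 0 (hn wF * 2) wZ)
        ((hd (lanes (mkS th (3 ^ k) wF 0) F)).x.lor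
          ((hd (lanes (mkS th (3 ^ k) wF 0) F)).y.shiftLeft (hn wF * 3 ^ k))) (lanes (mkS th (3 ^ k) wZ 0) Z))
      (nextW_pos _ _ _) (nextW_pos _ _ _)
    have fZ : ∀ e σ g, e.length = k → ExZ e σ g → σ.length < k + 2 := fun e σ g he h => by
      have := ExZ_len e σ g h; omega
    have fF : ∀ e σ g, e.length = k → ExF e σ g → σ.length < k + 1 := fun e σ g he h => by
      have := ExF_len e σ g h; omega
    rw [dp_succ]
    refine ⟨fun e he σ g b hb hX h => ?_, fun e he σ g b hb hX h => ?_, fun h1 h2 e he g hU h => ?_⟩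
    · match e, σ, he, hb, hX, h with
      | none :: e, σ, he, hb, hX, h =>
        exact stepL hZ iZ fZ (by simpa using he) hb hX (by simpa only [ExZ] using h)
      | some v :: e, [], he, hb, hX, h => exact stepO hZ iZ fZ (by simpa using he) hb hX h
      | some v :: e, t :: σ, he, hb, hX, h =>
        rcases h with h | h
        · exact stepO hZ iZ fZ (by simpa using he) hb hX h
        · exact stepC hZ iZ fZ (by simpa using he) hb hX h
    · match e, σ, he, hb, hX, h with
      | none :: e, σ, he, hb, hX, h =>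
        exact stepL hF iF fF (by simpa using he) hb hX (by simpa only [ExF] using h)
      | some v :: e, t :: σ, he, hb, hX, h =>
        rcases h with h | h
        · exact stepO hF iF fF (by simpa using he) hb hX h
        · exact stepC hF iF fF (by simpa using he) hb hX h
      | some v :: e, [], he, hb, hX, h =>
        rcases h with h | h
        · exact stepO hF iF fF (by simpa using he) hb hX h
        · have he' : e.length = k := by simpa using he
          have hb' : b < hn wF := hb
          have hn' : nx (hn wF) b < hn wF := nx_lt hb'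
          have hx : cw th e < 3 ^ k := he' ▸ cw_lt th e
          have hI := stepI (i := cond v (hn wF) 0 + nx (hn wF) b) (g := fun e' => g [] (some v :: e'))
            hZ iZ fZ he' (by cases v <;> simp <;> omega) (fun e' h2 h3 => by
              have h4 := hX [] (some v :: e') rfl (by simp [h2]) h3
              rw [idx_cons th b _ h2] at h4
              have h6 := E_bit (ws := wF) (σ := []) hb (h2 ▸ cw_lt th e') h4
              cases v
              · rw [cond_false, Nat.zero_add]
                exact B_orl h6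
              · exact B_orr (B_shl h6 (by show (hn wF + nx (hn wF) b) * _ + _ = nx (hn wF) b * _ + _ + _; ring))) h
          rw [idx_cons th b (some v) he']
          refine U_bit (σ := []) hb hx ?_
          cases v
          · rw [cond_false, Nat.zero_add] at hI
            exact B_orr (B_and hI (B_ones (cell_lt hn' hx)))
          · exact B_orr (B_shr hI (by show (hn wF + nx (hn wF) b) * _ + _ = _ + (nx (hn wF) b * _ + _); ring))
    · subst h1 h2
      match e, he, h with
      | none :: e, he, h =>
        have he' : e.length = k := by simpa using he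
        have := iU rfl rfl e he' _ (fun e' h2 h3 => B_and (by
          have h4 := hU (none :: e') (by simp [h2]) h3
          rw [cw_cons] at h4
          simpa [dv] using h4) (B_ones (h2 ▸ cw_lt false e'))) h
        rw [cw_cons, show dv false none = 0 from rfl, Nat.zero_mul, Nat.zero_add]
        exact B_orl (B_orl this)
      | some false :: e, he, h =>
        have he' : e.length = k := by simpa using he
        have hI := stepI (i := 0) (g := fun e' => g (some false :: e')) hF iF fF he' (by omega) (fun e' h2 h3 => by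
          have h4 := hU (some false :: e') (by simp [h2]) h3
          rw [cw_cons, h2] at h4
          exact B_and (B_shr h4 (by simp [dv])) (B_ones (by simpa [h2] using cw_lt false e'))) h
        rw [cw_cons, he']
        exact B_orl (B_orr (B_shl hI (by simp [dv, Nat.add_comm])))
      | some true :: e, he, h =>
        have he' : e.length = k := by simpa using he
        have h4 := hU _ he h
        refine B_orr (B_and h4 (B_shl (B_ones (he' ▸ cw_lt false e)) ?_))
        rw [cw_cons, he']
        simp [dv]; omega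

theorem sw_sound : ∀ (k n b X : Nat) (l : List Nat), b < n → l.length = k → (∀ v ∈ l, v < 3) →
    B X (b * 3 ^ k + cd l) → B (sw (planW k n) X) (b * 3 ^ k + cd (l.map sd))
  | 0, _, _, _, l, _, hl, _, h => by
    obtain rfl : l = [] := List.eq_nil_of_length_eq_zero hl
    exact h
  | k + 1, n, b, X, [], _, hl, _, _ => by simp at hl
  | k + 1, n, b, X, v :: l, hb, hl, hv, h => by
    have hl' : l.length = k := by simpa using hl
    have hx : ∀ l : List Nat, (∀ v ∈ l, v < 3) → cd l < 3 ^ l.length := by
      intro l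
      induction l with
      | nil => simp [cd]
      | cons a l ih =>
        intro h
        have h1 := ih fun v hv => h v (List.mem_cons_of_mem _ hv)
        have h2 := Nat.mul_le_mul_right (3 ^ l.length) (Nat.le_of_lt_succ (h a List.mem_cons_self))
        simp only [cd, List.length_cons, Nat.pow_succ]
        omega
    have hl3 : ∀ v ∈ l, v < 3 := fun v h => hv v (List.mem_cons_of_mem _ h)
    have hx' : cd l < 3 ^ k := hl' ▸ hx l hl3
    have h3 : v < 3 := hv v List.mem_cons_self
    have e1 : b * 3 ^ (k + 1) = b * (3 * 3 ^ k) := by ring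
    have key := sw_sound k (n * 3) (b * 3 + sd v)
      (((X.land (rep (3 ^ k) n)).lor ((X.land ((rep (3 ^ k) n).shiftLeft (3 ^ k))).shiftLeft (3 ^ k))).lor
        ((X.land (mk (3 ^ k) n 2)).shiftRight (3 ^ k))) l
      (by have : sd v < 3 := by
            match v, h3 with
            | 0, _ => decide
            | 1, _ => decide
            | 2, _ => decide
          omega) hl' hl3 (by
        simp only [cd, hl'] at h
        match v, h3, h with
        | 0, _, h =>
          have : (b * 3 + sd 0) * 3 ^ k = b * (3 * 3 ^ k) := by simp only [sd]; ring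
          refine B_orl (B_orl (B_and ?_ (B_mk0 hb hx' (by omega))))
          convert h using 1; omega
        | 1, _, h =>
          have : (b * 3 + sd 1) * 3 ^ k = b * (3 * 3 ^ k) + 2 * 3 ^ k := by simp only [sd]; ring
          exact B_orl (B_orr (B_shl (B_and h (B_mk1 hb hx' (by omega))) (by omega)))
        | 2, _, h =>
          have : (b * 3 + sd 2) * 3 ^ k = b * (3 * 3 ^ k) + 3 ^ k := by simp only [sd]; ring
          exact B_orr (B_shr (B_and h (B_mk (j := 2) hb hx' (by omega))) (by omega)))
    have e2 : b * 3 ^ (k + 1) + cd ((v :: l).map sd) = (b * 3 + sd v) * 3 ^ k + cd (l.map sd) := by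
      simp only [List.map_cons, cd, List.length_map, hl']; ring
    rw [e2]
    exact key

theorem steps (k : Nat) : Steps k (stA (pA k)) (stB (pB k)) (sw (pW k)) where
  ha L g hL e he h :=
    (dp_sound false 1 k [] [] L [] [] (fun d h => by rw [nn_nil] at h; omega)
      (fun d h => by rw [nn_nil] at h; omega)).2.2 rfl rfl e he g hL h
  hb L g hL e he h := by
    have := (dp_sound true 0 k [1] [] 0 [one L] [] (fun d h => by
        have : nn [1] (d + 1) = 0 := nn_nil d
        omega) (fun d h => by rw [nn_nil] at h; omega)).2.1 e he [] (fun _ => g) 0 (by decide)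
      (fun σ' e' h1 h2 h3 => by
        obtain rfl : σ' = [] := List.eq_nil_of_length_eq_zero h1
        rw [Nat.zero_mul, Nat.zero_add]
        exact hL e' h2 h3) h
    rw [Nat.zero_mul, Nat.zero_add] at this
    exact this
  hw X l hl hv h := by
    have := sw_sound k 1 0 X l (by decide) hl hv (by rw [Nat.zero_mul, Nat.zero_add]; exact h)
    rw [Nat.zero_mul, Nat.zero_add] at this
    exact this

/-- An invariant of both steps is an invariant of the loop. -/
theorem run_inv {k : Nat} {Inv : Nat → Prop}
    (hA : ∀ L, Inv L → Inv ((L.land (stA (pA k) L)).land (sw (pW k) (stA (pA k) L))))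
    (hB : ∀ L, Inv L → Inv ((L.land (stB (pB k) L)).land (sw (pW k) (stB (pB k) L)))) :
    ∀ (n p L : Nat), Inv L → Inv (run k n p L)
  | 0, _, _, h => h
  | _ + 1, _, 0, h => h
  | n + 1, p, L + 1, h => by
    refine run_inv hA hB n (p.shiftRight 1) (step (pW k) (pA k) (pB k) p ((L + 1).sub (n.sub n))) ?_
    have e : (L + 1).sub (n.sub n) = L + 1 := by show L + 1 - (n - n) = L + 1; omega
    rw [e]
    unfold step
    cases p.land (nat_lit 1)
    · exact hA _ h
    · exact hB _ h

end

end Pool.Agent.Lib.MP_fe5cb4_co.FC.Kempe
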