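import Pool.Agent.Lib.MP_fe5cb4_co.FC.KMain
import Pool.Agent.Lib.MP_fe5cb4_co.FC.KBridge

/-!
The loop of Kempe steps keeps every consistent set.
-/

namespace Pool.Agent.Lib.MP_fe5cb4_co.FC.Kempe

open Pool.Agent.FCT

theorem run_Inv {r : ℕ} {C : Set (ℕ → K)} (hC : Consistent r C) (hr : 2 ≤ r) (n p L : ℕ) (h : Inv r C L) :
    Inv r C (run (r - 2) n p L) :=
  run_inv (fun _ h => bridge_a hC hr (steps _) h) (fun _ h => bridge_b hC hr (steps _) h) n p L h

end Pool.Agent.Lib.MP_fe5cb4_co.FC.Kempe
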