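import Pool.Agent.Lib.MP_fe5cb4_co.FC.KBit

/-!
Trees and lists of trees in the Kempe steps.
-/

namespace Pool.Agent.Lib.MP_fe5cb4_co.FC.Kempe

noncomputable section

/-- the subtree at a stack -/
def sub : T → List Bool → T
  | t, [] => t
  | t, b :: σ => sub (cond b t.r t.l) σ

def nt : List T → Nat → T
  | l, 0 => hd l
  | l, d + 1 => nt (tl l) d

def nn : List Nat → Nat → Nat
  | l, 0 => hn l
  | l, d + 1 => nn (tn l) d

/-- the width that comes from below -/
def po (o : Nat) (ws : List Nat) : Nat → Nat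
  | 0 => o
  | d + 1 => nn ws d

def pvn (pv : T) (l : List T) : Nat → T
  | 0 => pv
  | d + 1 => nt l d

theorem sub_nil : ∀ σ, sub nil σ = nil
  | [] => rfl
  | false :: σ => sub_nil σ
  | true :: σ => sub_nil σ

theorem sub_map1 (f : Nat → T) : ∀ (σ : List Bool) (t : T), (sub t σ).w ≠ 0 → sub (map1 f t) σ = f (sub t σ).w
  | [], T.lf _ _ _ _, _ => rfl
  | [], T.nd _ _, h => absurd rfl h
  | b :: σ, T.lf w x y z, h => by
    have : sub (T.lf w x y z) (b :: σ) = nil := by cases b <;> exact sub_nil σ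
    rw [this] at h
    exact absurd rfl h
  | false :: σ, T.nd l _, h => sub_map1 f σ l h
  | true :: σ, T.nd _ r, h => sub_map1 f σ r h

theorem sub_zip4 (f : T → T → T → T → T) : ∀ (σ : List Bool) (a b c e : T),
    sub (zip4 f σ.length a b c e) σ = f (sub a σ) (sub b σ) (sub c σ) (sub e σ)
  | [], _, _, _, _ => rfl
  | false :: σ, a, b, c, e => sub_zip4 f σ a.l b.l c.l e.l
  | true :: σ, a, b, c, e => sub_zip4 f σ a.r b.r c.r e.r

theorem nn_nil : ∀ d, nn [] d = 0
  | 0 => rfl
  | d + 1 => nn_nil d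

theorem po_tn (o : Nat) (ws : List Nat) : ∀ d, po (hn ws) (tn ws) d = po o ws (d + 1)
  | 0 => rfl
  | _ + 1 => rfl

theorem pvn_tl (pv : T) (l : List T) : ∀ d, pvn (hd l) (tl l) d = pvn pv l (d + 1)
  | 0 => rfl
  | _ + 1 => rfl

/-- no width is zero -/
def Pos (ws : List Nat) : Prop := ∀ d, 0 < nn ws (d + 1) → 0 < nn ws d

theorem Pos.tn {ws : List Nat} (h : Pos ws) : Pos (tn ws) := fun d => h (d + 1)

theorem Pos.zero {ws : List Nat} (h : Pos ws) : ∀ d, 0 < nn ws d → 0 < nn ws 0
  | 0, e => e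
  | d + 1, e => h.zero d (h d e)

theorem nextW_succ (c o : Nat) (ws : List Nat) : nextW (c + 1) o ws =
    if hn ws + o = 0 then [] else (hn ws + o + hn (tn ws) * 2) :: nextW c (hn ws) (tn ws) := by
  show @Nat.rec (fun _ => List Nat) [] (fun _ _ => (hn ws + o + hn (tn ws) * 2) :: nextW c (hn ws) (tn ws))
    (hn ws + o) = _
  cases hn ws + o <;> simp

theorem nextW_hd : ∀ (c o : Nat) (ws : List Nat), 0 < nn (nextW c o ws) 1 → 0 < nn (nextW c o ws) 0
  | 0, _, _, h => absurd h (by show ¬ 0 < 0; omega)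
  | c + 1, o, ws, h => by
    rw [nextW_succ] at h ⊢
    split_ifs at h ⊢ with e
    · exact absurd h (by show ¬ 0 < 0; omega)
    · show 0 < hn ws + o + hn (tn ws) * 2
      omega

theorem nextW_pos : ∀ (c o : Nat) (ws : List Nat), Pos (nextW c o ws)
  | 0, _, _ => fun d h => absurd h (by show ¬ 0 < nn [] (d + 1); rw [nn_nil]; omega)
  | c + 1, o, ws => fun d h => by
    cases d with
    | zero => exact nextW_hd _ _ _ h
    | succ d =>
      rw [nextW_succ] at h ⊢
      split_ifs at h ⊢ with e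
      · rw [nn_nil] at h; omega
      · exact nextW_pos c (hn ws) (tn ws) d h

theorem nextW_nn : ∀ (c o : Nat) (ws : List Nat) (d : Nat), Pos ws → d < c → 0 < nn ws d + po o ws d →
    nn (nextW c o ws) d = nn ws d + po o ws d + nn ws (d + 1) * 2
  | 0, _, _, _, _, h, _ => absurd h (Nat.not_lt_zero _)
  | c + 1, o, ws, 0, _, _, h => by
    have h' : 0 < hn ws + o := h
    rw [nextW_succ, if_neg (by omega)]
    rfl
  | c + 1, o, ws, d + 1, hp, hc, h => by
    have h0 : 0 < hn ws := by
      have h' : 0 < nn ws (d + 1) + nn ws d := h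
      by_cases e : 0 < nn ws d
      · exact hp.zero d e
      · exact hp.zero (d + 1) (by omega)
    rw [nextW_succ, if_neg (by omega)]
    show nn (nextW c (hn ws) (tn ws)) d = _
    rw [nextW_nn c (hn ws) (tn ws) d hp.tn (by omega) (by rw [po_tn o]; exact h), po_tn o]
    rfl

theorem nt_lanes (th : Bool) (s : Nat) : ∀ (ws : List Nat) (d0 : Nat) (l : List T) (d : Nat), 0 < nn ws d →
    nt (lanes (mkS th s ws d0) l) d = map1 (sc th s (d0 + d).pred (nn ws d)).lane (nt l d)
  | [], _, _, d, h => by rw [nn_nil] at h; omega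
  | _ :: _, _, _, 0, _ => rfl
  | _ :: ws, d0, l, d + 1, h => by
    have := nt_lanes th s ws (d0 + 1) (tl l) d h
    rw [show d0 + 1 + d = d0 + (d + 1) by omega] at this
    exact this

theorem nt_peels (s : Nat) : ∀ (nw : List Nat) (d0 o : Nat) (ws : List Nat) (l : List T) (d : Nat), 0 < nn nw d →
    nt (peels (mkT s nw d0 o ws) l) d =
      map1 (tc s (d0 + d).pred (nn ws d) (po o ws d) (nn ws (d + 1))).peel (nt l d)
  | [], _, _, _, _, d, h => by rw [nn_nil] at h; omega
  | _ :: _, _, _, _, _, 0, _ => rfl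
  | _ :: nw, d0, o, ws, l, d + 1, h => by
    have := nt_peels s nw (d0 + 1) (hn ws) (tn ws) (tl l) d h
    rw [show d0 + 1 + d = d0 + (d + 1) by omega, po_tn o] at this
    exact this

theorem nt_down (s : Nat) : ∀ (nw : List Nat) (d0 o : Nat) (ws : List Nat) (pv : T) (l : List T) (d : Nat),
    0 < nn nw d → nt (down (mkT s nw d0 o ws) pv l) d =
      down1 (tc s (d0 + d).pred (nn ws d) (po o ws d) (nn ws (d + 1))) (pvn pv l d) (nt l d)
        (nt l (d + 1)).l (nt l (d + 1)).r
  | [], _, _, _, _, _, d, h => by rw [nn_nil] at h; omega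
  | _ :: _, _, _, _, _, _, 0, _ => rfl
  | _ :: nw, d0, o, ws, pv, l, d + 1, h => by
    have := nt_down s nw (d0 + 1) (hn ws) (tn ws) (hd l) (tl l) d h
    rw [show d0 + 1 + d = d0 + (d + 1) by omega, po_tn o, pvn_tl pv] at this
    exact this

theorem nt_ups (th : Bool) (s : Nat) : ∀ (ws : List Nat) (d0 : Nat) (pv : T) (l : List T) (d : Nat),
    0 < nn ws d → nt (ups (mkS th s ws d0) pv l) d =
      ups1 (sc th s (d0 + d).pred (nn ws d)) (pvn pv l d) (nt l d) (nt l (d + 1)).l (nt l (d + 1)).r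
  | [], _, _, _, d, h => by rw [nn_nil] at h; omega
  | _ :: _, _, _, _, 0, _ => rfl
  | _ :: ws, d0, pv, l, d + 1, h => by
    have := nt_ups th s ws (d0 + 1) (hd l) (tl l) d h
    rw [show d0 + 1 + d = d0 + (d + 1) by omega, pvn_tl pv] at this
    exact this

/-- the number that comes from below -/
def below (I : Nat) (E : List T) : List Bool → Nat
  | [] => I
  | t :: σ => fld (some t) (sub (nt E σ.length) σ)

theorem sub_down0 (s : Nat) (nw : List Nat) (o : Nat) (ws : List Nat) (I : Nat) (E : List T) (σ : List Bool)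
    (h : 0 < nn nw σ.length) :
    (sub (nt (down0 (mkT s nw 0 o ws) I E) σ.length) σ).w =
      cat s (nn ws σ.length) (po o ws σ.length) (nn ws (σ.length + 1)) (sub (nt E σ.length) σ).w (below I E σ)
        ((sub (nt E (σ.length + 1)) (false :: σ)).x.land (sub (nt E (σ.length + 1)) (true :: σ)).y)
        ((sub (nt E (σ.length + 1)) (false :: σ)).y.land (sub (nt E (σ.length + 1)) (true :: σ)).x) := by
  cases nw with
  | nil => rw [nn_nil] at h; omega
  | cons n nw =>
    cases σ with
    | nil => rfl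
    | cons t σ =>
      have := nt_down s nw 1 (hn ws) (tn ws) (hd E) (tl E) σ.length h
      rw [show (1 + σ.length).pred = σ.length by simp [Nat.add_comm], po_tn o, pvn_tl nil] at this
      have e : nt (down0 (mkT s (n :: nw) 0 o ws) I E) (t :: σ).length =
          nt (down (mkT s nw 1 (hn ws) (tn ws)) (hd E) (tl E)) σ.length := rfl
      rw [e, this]
      cases t
      · exact congrArg T.w (sub_zip4 _ σ _ _ _ _)
      · exact congrArg T.w (sub_zip4 _ σ _ _ _ _)

/-- what a closed arc returns to the letter `v` -/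
def back (ca cb : Nat) (P : List T) (v : Bool) : List Bool → Nat
  | [] => cond v cb ca
  | t :: σ => cond (t == v) (sub (nt P σ.length) σ).y (sub (nt P σ.length) σ).z

theorem sub_ups0 (th : Bool) (s : Nat) (ws : List Nat) (ca cb : Nat) (P : List T) (σ : List Bool)
    (h : 0 < nn ws σ.length) :
    ∃ e, sub (nt (ups0 (mkS th s ws 0) ca cb P) σ.length) σ =
      (sc th s e (nn ws σ.length)).unl (sub (nt P σ.length) σ).w
        ((sub (nt P (σ.length + 1)) (false :: σ)).x.lor (back ca cb P false σ))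
        ((sub (nt P (σ.length + 1)) (true :: σ)).x.lor (back ca cb P true σ)) := by
  cases ws with
  | nil => rw [nn_nil] at h; omega
  | cons n ws =>
    cases σ with
    | nil => exact ⟨_, rfl⟩
    | cons t σ =>
      have := nt_ups th s ws 1 (hd P) (tl P) σ.length h
      rw [show (1 + σ.length).pred = σ.length by simp [Nat.add_comm], pvn_tl nil] at this
      have e : nt (ups0 (mkS th s (n :: ws) 0) ca cb P) (t :: σ).length =
          nt (ups (mkS th s ws 1) (hd P) (tl P)) σ.length := rfl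
      rw [e, this]
      refine ⟨σ.length, ?_⟩
      cases th <;> cases t <;> exact sub_zip4 _ σ _ _ _ _

end

end Pool.Agent.Lib.MP_fe5cb4_co.FC.Kempe
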