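import Pool.Agent.Lib.MP_fe5cb4_co.FC.Enum
import Pool.Agent.Lib.MP_fe5cb4_co.FC.KSem
import Pool.Agent.Lib.MP_fe5cb4_co.FCT.Defs

/-!
The enumeration of ring colourings and the ring words of a configuration.
-/

set_option autoImplicit false

namespace Pool.Agent.Lib.MP_fe5cb4_co.FC

open Pool.Agent.FCT

/-- The number of a colour. -/
def cn (x : K) : ℕ := x.1.val + 2 * x.2.val

/-- The colour of a number. -/
def nc (n : ℕ) : K := ((n : ZMod 2), ((n / 2 : ℕ) : ZMod 2))

/-- The index of a ring word: the first and the last letter are left out. -/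
def widx (r : ℕ) (κ : ℕ → K) : ℕ := Kempe.cd ((List.range' 1 (r - 2)).map fun p => cn (κ p) - 1)

theorem cn_add : ∀ x y : K, cn (x + y) = cn x ^^^ cn y := by decide

theorem cn_nc : ∀ n < 4, cn (nc n) = n := by decide

theorem cn_inj : ∀ x y : K, x ≠ 0 → y ≠ 0 → cn x - 1 = cn y - 1 → x = y := by decide

theorem cn_lt : ∀ x : K, cn x - 1 < 3 := by decide

theorem cn_rng (X : List (ℕ × ℕ)) (F : ℕ × ℕ) (a b : ℕ) (x : K) : cn x ∈ rng X F a b ↔
    (x = 0 ↔ zz X a b = true) ∧ (eqp a b F = true → cn x - 1 = 0) := by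
  unfold rng
  generalize zz X a b = z, eqp a b F = o
  revert x z o
  decide

theorem add_zero_iff : ∀ x y : K, x + y = 0 ↔ x = y := by decide

theorem enc_append (l : List ℕ) (v : ℕ) : enc (l ++ [v]) = v * 3 ^ l.length + enc l := by
  induction l with
  | nil => simp [enc]
  | cons d l ih => simp only [List.cons_append, enc, ih, List.length_cons, pow_succ]; ring

theorem cd_enc (l : List ℕ) : Kempe.cd l = enc l.reverse := by
  induction l with
  | nil => rfl
  | cons d l ih => rw [List.reverse_cons, enc_append, List.length_reverse, ← ih, Kempe.cd]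

theorem pr_inj {a b x y : ℕ} (h : pr a b = pr x y) : (a, b) = (x, y) ∨ (a, b) = (y, x) := by
  have key : ∀ a b x y : ℕ, a ≤ b → x ≤ y → b * b + a = y * y + x → b = y := fun a b x y h1 h2 h =>
    le_antisymm (not_lt.1 fun k => by nlinarith) (not_lt.1 fun k => by nlinarith)
  simp only [pr, Bool.cond_eq_ite, Nat.blt_eq] at h
  simp only [Prod.mk.injEq]
  split_ifs at h with h1 h2 h2
  · obtain rfl := key _ _ _ _ h1.le h2.le h
    omega
  · obtain rfl := key _ _ _ _ h1.le (not_lt.1 h2) h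
    omega
  · obtain rfl := key _ _ _ _ (not_lt.1 h1) h2.le h
    omega
  · obtain rfl := key _ _ _ _ (not_lt.1 h1) (not_lt.1 h2) h
    omega

theorem pin_mem {p : ℕ × ℕ} : ∀ {l : List (ℕ × ℕ)}, pin (pset l) p → p ∈ l ∨ p.swap ∈ l := by
  have e : ∀ M, pin M p → M.testBit (pr p.1 p.2) := fun M h => by
    simp only [pin, Nat.beq_eq, Nat.land_eq, Nat.shiftRight_eq] at h
    simp [Nat.testBit, h]
  intro l h
  replace h := e _ h
  induction l with
  | nil => simp [pset] at h
  | cons q l ih =>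
    simp only [pset, Nat.lor_eq, Nat.testBit_or, Bool.or_eq_true, Nat.shiftLeft_eq',
      Nat.one_shiftLeft, Nat.testBit_two_pow, decide_eq_true_iff] at h
    rcases h with h | h
    · rcases pr_inj h with h | h
      · exact .inl (by rw [show p = q from h.symm]; simp)
      · exact .inr (by rw [show p.swap = q from h.symm]; simp)
    · exact (ih h).imp (List.mem_cons_of_mem _) (List.mem_cons_of_mem _)

theorem mem_wed {a b : ℕ} : ∀ {W : List (ℕ × List ℕ)}, (a, b) ∈ wed W ↔ Nb W a b
  | [] => by simp [wed, Nb]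
  | q :: W => by
    simp only [wed, List.mem_append, List.mem_map, Prod.mk.injEq, mem_wed (W := W), Nb,
      List.mem_cons, exists_eq_or_imp]
    exact or_congr_left ⟨fun ⟨x, h1, h2, h3⟩ => ⟨h2, h3 ▸ h1⟩, fun h => ⟨b, h.2, h.1, rfl⟩⟩

theorem okE_swap {X : List (ℕ × ℕ)} {F : ℕ × ℕ} {c : ℕ → ℕ} {p : ℕ × ℕ} (h : OkE X F c p.swap) :
    OkE X F c p := by
  rwa [OkE, Nat.xor_comm, rng_comm]

theorem dgs_rfin (c : ℕ → K) (R : List ℕ) : enc (dgs (fun v => cn (c v)) (rfin R)) =
    widx R.length fun p => c (rg R p) + c (rg R (p + 1)) := by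
  simp only [widx, cd_enc, dgs, rfin, List.map_reverse, List.map_map, cn_add]
  rfl

theorem widx_congr {r : ℕ} {κ κ' : ℕ → K} (h : ∀ p < r, κ p = κ' p) : widx r κ = widx r κ' :=
  congrArg Kempe.cd (List.map_congr_left fun p hp => by
    rw [h p (by rw [List.mem_range'_1] at hp; omega)])

theorem widx_inj {r : ℕ} {κ κ' : ℕ → K} (h : ∀ p < r, κ p ≠ 0) (h' : ∀ p < r, κ' p ≠ 0)
    (s : ∑ p ∈ Finset.range r, κ p = ∑ p ∈ Finset.range r, κ' p)
    (h0 : cn (κ 0) - 1 = cn (κ' 0) - 1) (e : widx r κ = widx r κ') : ∀ p < r, κ p = κ' p := by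
  have hl : ∀ f : ℕ → K,
      Dg (r - 2) ((List.range' 1 (r - 2)).map fun p => cn (f p) - 1).reverse := fun f =>
    ⟨by simp, fun x hx => by
      obtain ⟨p, -, rfl⟩ := List.mem_map.1 (List.mem_reverse.1 hx)
      exact cn_lt _⟩
  rw [widx, widx, cd_enc, cd_enc] at e
  have e1 := List.map_inj_left.1 (List.reverse_injective (enc_inj (hl _) (hl _) e))
  have e2 : ∀ p, p + 1 < r → κ p = κ' p := fun p hp => cn_inj _ _ (h p (by omega)) (h' p (by omega))
    (by
      rcases Nat.eq_zero_or_pos p with rfl | k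
      · exact h0
      · exact e1 p (by rw [List.mem_range'_1]; omega))
  intro p hp
  by_cases k : p + 1 < r
  · exact e2 p k
  obtain rfl : r = p + 1 := by omega
  rw [Finset.sum_range_succ, Finset.sum_range_succ,
    Finset.sum_congr rfl fun q hq => e2 q (by simpa using hq)] at s
  exact add_left_cancel s

theorem sum_ring (c : ℕ → K) (R : List ℕ) :
    ∑ p ∈ Finset.range R.length, (c (rg R p) + c (rg R (p + 1))) = 0 := by
  have := Finset.sum_range_sub (fun p => c (rg R p)) R.length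
  rw [show rg R R.length = rg R 0 by simp [rg], sub_self] at this
  rw [← this]
  exact Finset.sum_congr rfl fun p _ => by rw [CharTwo.sub_eq_add, add_comm]

/-- A word whose index is found with the empty contract extends. -/
theorem wds_sound {W : List (ℕ × List ℕ)} {R : List ℕ} {k : ℕ} {P : List Stp}
    (h : chk0 W R k P = true) {κ : ℕ → K} (hκ : ∀ p < R.length, κ p ≠ 0)
    (hs : ∑ p ∈ Finset.range R.length, κ p = 0) (h0 : cn (κ 0) - 1 = 0)
    (hb : (wds R [] k P).testBit (widx R.length κ) = true) : Ext W R [] κ := by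
  simp only [chk0, Bool.and_eq_true, List.all_eq_true, Bool.not_eq_true', ← Bool.not_eq_true,
    Nat.beq_eq] at h
  obtain ⟨c, h4, hc, e⟩ := ext_sound h.1 hb
  obtain ⟨d, rfl⟩ : ∃ d : ℕ → K, c = fun v => cn (d v) :=
    ⟨fun v => nc (c v), funext fun v => (cn_nc _ (h4 v)).symm⟩
  have hE : ∀ p ∈ red R ++ wed W, d p.1 + d p.2 ≠ 0 ∧
      (eqp p.1 p.2 (rpair R 0) = true → cn (d p.1 + d p.2) - 1 = 0) := fun p hp => by
    obtain ⟨h1, h2⟩ := h.2 _ hp
    have h3 := (pin_mem h2).elim (hc _) fun e => okE_swap (hc _ e)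
    rw [OkE, ← cn_add, cn_rng, zz_iff] at h3
    exact ⟨by simpa [h1] using h3.1, h3.2⟩
  have hR := fun p hp => hE _ (List.mem_append_left _ (List.mem_map.2 ⟨p, List.mem_range.2 hp, rfl⟩))
  refine ⟨d, fun a b hab => ?_, fun p hp => ?_⟩
  · simpa [FCT.Con, add_zero_iff] using (hE _ (List.mem_append_right _ (mem_wed.2 hab))).1
  · exact widx_inj hκ (fun p hp => (hR p hp).1) (hs.trans (sum_ring d R).symm)
      (h0.trans ((hR 0 (by omega)).2 (eqp_iff.2 (.inl rfl))).symm) (e.trans (dgs_rfin d R)) p hp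

/-- The index of a word that extends with the contract `X` is found. -/
theorem wds_complete {W : List (ℕ × List ℕ)} {R : List ℕ} {X : List (ℕ × ℕ)} {k : ℕ}
    {P : List Stp} (h : chkX W R X k P = true) (hr : 0 < R.length) {κ : ℕ → K}
    (hκ : ∀ p < R.length, κ p ≠ 0) (h0 : cn (κ 0) - 1 = 0) (he : Ext W R X κ) :
    (wds R X k P).testBit (widx R.length κ) = true := by
  simp only [chkX, Bool.and_eq_true, List.all_eq_true, Bool.not_eq_true', Bool.or_eq_true,
    Nat.beq_eq] at h
  obtain ⟨⟨h1, h2⟩, h3⟩ := h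
  obtain ⟨c, hc, hw⟩ := he
  have hE : ∀ p ∈ red R ++ wed W, OkE X (rpair R 0) (fun v => cn (c v)) p := fun p hp => by
    rw [OkE, ← cn_add, cn_rng]
    refine ⟨?_, fun e => ?_⟩
    · rcases List.mem_append.1 hp with hp | hp
      · rw [h2 p hp]
        obtain ⟨i, hi, rfl⟩ := List.mem_map.1 hp
        exact iff_of_false (fun e => hκ i (List.mem_range.1 hi)
          ((hw i (List.mem_range.1 hi)).trans e)) (by simp)
      · rw [zz_iff, add_zero_iff]
        exact ⟨fun e => .inr ((hc _ _ (mem_wed.1 hp)).1 e),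
          fun e => e.elim (congrArg c) (hc _ _ (mem_wed.1 hp)).2⟩
    · rw [hw 0 hr] at h0
      rcases eqp_iff.1 e with e | e
      · rwa [show p.1 = rg R 0 from (congrArg Prod.fst e).symm,
          show p.2 = rg R (0 + 1) from (congrArg Prod.snd e).symm]
      · rwa [show p.2 = rg R 0 from (congrArg Prod.fst e).symm,
          show p.1 = rg R (0 + 1) from (congrArg Prod.snd e).symm, add_comm]
  rw [widx_congr hw, ← dgs_rfin]
  refine ext_complete h1 fun p hp => ?_
  rcases h3 p hp with e | e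
  · simp [OkE, e, rng_self]
  · exact (pin_mem e).elim (hE p) fun e => okE_swap (hE _ e)

end Pool.Agent.Lib.MP_fe5cb4_co.FC
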