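import Pool.Agent.Lib.MP_fe5cb4_co.FC.Link
import Pool.Agent.Lib.MP_fe5cb4_co.FC.KBridge

/-!
Reducibility from the enumeration and a sound closure.
-/

set_option autoImplicit false

namespace Pool.Agent.Lib.MP_fe5cb4_co.FC

open Pool.Agent.FCT Kempe

theorem dig_cn : ∀ x : K, x ≠ 0 → dig x = cn x - 1 := by decide

theorem idx_widx {r : ℕ} {κ : ℕ → K} (h : ∀ p < r, κ p ≠ 0) : idx r κ = widx r κ :=
  congrArg Kempe.cd (List.map_congr_left fun p hp =>
    dig_cn _ (h p (by rw [List.mem_range'_1] at hp; omega)))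

/-- The component of `nz k` for a colour. -/
def nzc (k : ℕ) (s : K) : ℕ :=
  if s = 0 then (nz k).1 else if s = (1, 0) then (nz k).2.1 else
    if s = (0, 1) then (nz k).2.2.1 else (nz k).2.2.2

theorem nzc_succ (k : ℕ) (s : K) : nzc (k + 1) s =
    cat (3 ^ k) (nzc k (s + (1, 0))) (nzc k (s + (0, 1))) (nzc k (s + (1, 1))) := by
  have : s = 0 ∨ s = (1, 0) ∨ s = (0, 1) ∨ s = (1, 1) := by revert s; decide
  rcases this with rfl | rfl | rfl | rfl <;> rfl

theorem bit_nz : ∀ (l : List K) (s : K), (∀ x ∈ l, x ≠ 0) → l.sum ≠ s →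
    (nzc l.length s).testBit (Kempe.cd (l.map dig)) = true
  | [], s, _, h => by revert s; decide
  | x :: l, s, h0, h => by
    have ih := bit_nz l (s + x) (fun y hy => h0 y (by simp [hy])) fun e => h (by
      rw [List.sum_cons, e, add_comm s, ← add_assoc, CharTwo.add_self_eq_zero, zero_add])
    have : x = (1, 0) ∨ x = (0, 1) ∨ x = (1, 1) :=
      (by decide : ∀ y : K, y ≠ 0 → y = (1, 0) ∨ y = (0, 1) ∨ y = (1, 1)) x (h0 x (by simp))
    simp only [List.length_cons, nzc_succ, cat, Nat.lor_eq, Nat.testBit_or, Bool.or_eq_true, bit_shl,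
      List.map_cons, Kempe.cd, List.length_map]
    rcases this with rfl | rfl | rfl
    · exact .inl (by simpa [dig] using ih)
    · exact .inr (.inl ⟨_, by simp +decide [dig, add_comm], ih⟩)
    · exact .inr (.inr ⟨_, by simp +decide [dig, add_comm], ih⟩)

theorem bit_valid {r : ℕ} (hr : 2 ≤ r) {κ : ℕ → K} (h : ∀ p < r, κ p ≠ 0)
    (hs : ∑ p ∈ Finset.range r, κ p = 0) (h0 : dig (κ 0) = 0) :
    (nz (r - 2)).2.1.testBit (idx r κ) = true := by
  obtain ⟨m, rfl⟩ := Nat.exists_eq_add_of_le' hr
  have := bit_nz ((List.range' 1 m).map κ) (1, 0) (fun x hx => by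
    obtain ⟨p, hp, rfl⟩ := List.mem_map.1 hx
    exact h p (by rw [List.mem_range'_1] at hp; omega)) fun e => h (m + 1) (by omega) (by
      rw [Finset.sum_range_succ, Finset.sum_range_succ', (dig_zero _).1 h0] at hs
      rw [List.range'_eq_map_range, List.map_map] at e
      simp only [Function.comp_def, add_comm 1] at e
      rwa [show ∑ k ∈ Finset.range m, κ (k + 1) = (1, 0) from e, CharTwo.add_self_eq_zero,
        zero_add] at hs)
  rwa [List.length_map, List.length_range', List.map_map] at this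

/-- Reducibility from the two checks of the program and a sound closure `f`. -/
theorem red_of_run (S : Cfg) (k : ℕ) (P : List Stp) (f : ℕ → ℕ) (hr : 2 ≤ S.ring.length)
    (hf : ∀ C L, Consistent S.ring.length C → Inv S.ring.length C L → Inv S.ring.length C (f L))
    (h0 : chk0 S.whl S.ring k P = true) (hX : chkX S.whl S.ring S.con k P = true)
    (hz : (f (live0 S.ring k P)).land (wds S.ring S.con k P) = 0) : Red S := by
  refine red_of_inv S (by omega) (live0 S.ring k P) _ _ (fun κ h hs d hn => ?_)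
    (fun C hC => hf C _ hC) (fun κ h _ d he => ?_) hz
  · have d' := (dig_cn _ (h 0 (by omega))).symm.trans d
    have := mt (wds_sound h0 h hs d') hn
    rw [live0, Nat.xor_eq, Nat.testBit_xor, bit_valid hr h hs d, idx_widx h,
      Bool.eq_false_iff.2 this]
    rfl
  · rw [idx_widx h]
    exact wds_complete hX (by omega) h ((dig_cn _ (h 0 (by omega))).symm.trans d) he

end Pool.Agent.Lib.MP_fe5cb4_co.FC
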