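import Pool.Agent.Lib.MP_fe5cb4_co.FC.Live
import Pool.Agent.Lib.MP_fe5cb4_co.FC.KRun
import Pool.Agent.Lib.MP_fe5cb4_co.FCT.Quiz

/-!
One Boolean test for reducibility.
-/

set_option autoImplicit false

namespace Pool.Agent.Lib.MP_fe5cb4_co.FC

open Pool.Agent.FCT Kempe

/-- The test for `Red`. -/
noncomputable def redB (S : Cfg) (k : ℕ) (P : List Stp) (n p : ℕ) : Bool :=
  Nat.ble 2 S.ring.length && chk0 S.whl S.ring k P && chkX S.whl S.ring S.con k P &&
    Nat.beq ((Kempe.run (S.ring.length - 2) n p (live0 S.ring k P)).land (wds S.ring S.con k P)) 0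

theorem red_ok (S : Cfg) (k : ℕ) (P : List Stp) (n p : ℕ) (h : redB S k P n p = true) : Red S := by
  simp only [redB, Bool.and_eq_true, Nat.ble_eq, Nat.beq_eq] at h
  exact red_of_run S k P _ h.1.1.1 (fun _ L hC hL => run_Inv hC h.1.1.1 n p L hL) h.1.1.2 h.1.2 h.2

end Pool.Agent.Lib.MP_fe5cb4_co.FC
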