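import Pool.Agent.Lib.MP_fe5cb4_co.FC.EnumDef
import Pool.Agent.Lib.MP_fe5cb4_co.FC.Kempe

/-!
The test for reducibility, cut into stages: definitions.
-/

set_option autoImplicit false

namespace Pool.Agent.Lib.MP_fe5cb4_co.FC

/-- Wheels, ring and contract. -/
structure Raw : Type where
  W : List (Nat × List Nat)
  R : List Nat
  X : List (Nat × Nat)

/-- The tests of the program. -/
def progB (S : Raw) (k : Nat) (P : List Stp) : Bool :=
  Nat.beq S.R.length (Nat.add k 2) && chk0 S.W S.R k P && chkX S.W S.R S.X k P

/-- The number with the given blocks of `16384` bits, lowest block first. -/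
noncomputable def blk (l : List Nat) : Nat :=
  @List.rec Nat (fun _ => Nat) (nat_lit 0)
    (fun a _ ih => Nat.lor a (Nat.shiftLeft ih (nat_lit 16384))) l

/-- The run from `L` ends inside `M`. -/
noncomputable def midB (k n p L M : Nat) : Bool := Nat.beq ((Kempe.run k n p L).lor M) M

/-- The run from `L` ends outside `Z`. -/
noncomputable def endB (k n p L Z : Nat) : Bool :=
  Nat.beq ((Kempe.run k n p L).land Z) (nat_lit 0)

/-- Runs lead from `L` to a set that misses `Z`. -/
inductive Ch (k Z : Nat) : Nat → Prop where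
  | fin (n p L : Nat) (h : endB k n p L Z = true) : Ch k Z L
  | mid (n p L M : Nat) (h : midB k n p L M = true) (t : Ch k Z M) : Ch k Z L

/-- The tests succeed for some program. -/
def RawB (S : Raw) : Prop :=
  ∃ k P, progB S k P = true ∧ Ch k (wds S.R S.X k P) (live0 S.R k P)

/-- The test in one stage. -/
noncomputable def oneB (S : Raw) (k : Nat) (P : List Stp) (n p : Nat) : Bool :=
  progB S k P && endB k n p (live0 S.R k P) (wds S.R S.X k P)

theorem raw1 (S : Raw) (k : Nat) (P : List Stp) (n p : Nat) (h : oneB S k P n p = true) :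
    RawB S :=
  ⟨k, P, (Bool.and_eq_true_iff.1 h).1, .fin n p _ (Bool.and_eq_true_iff.1 h).2⟩

/-- The first stage of several. -/
noncomputable def fstB (S : Raw) (k : Nat) (P : List Stp) (n p M : Nat) : Bool :=
  progB S k P && midB k n p (live0 S.R k P) M

theorem raw2 (S : Raw) (k : Nat) (P : List Stp) (n p M : Nat) (h : fstB S k P n p M = true)
    (t : Ch k (wds S.R S.X k P) M) : RawB S :=
  ⟨k, P, (Bool.and_eq_true_iff.1 h).1, .mid n p _ M (Bool.and_eq_true_iff.1 h).2 t⟩

end Pool.Agent.Lib.MP_fe5cb4_co.FC
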