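import Pool.Agent.Lib.MP_fe5cb4_co.FC.RawDef
import Pool.Agent.Lib.MP_fe5cb4_co.FC.Live
import Pool.Agent.Lib.MP_fe5cb4_co.FC.KRun
import Pool.Agent.Lib.MP_fe5cb4_co.FCT.Quiz

/-!
The test for reducibility is sound.
-/

set_option autoImplicit false

namespace Pool.Agent.Lib.MP_fe5cb4_co.FC

open Pool.Agent.FCT Kempe

/-- The configuration. -/
def Raw.cfg (S : Raw) : Cfg := ⟨[], S.W, [], S.R, S.X⟩

theorem Ch.ex {k Z L : ℕ} (h : Ch k Z L) :
    ∃ M, M.land Z = 0 ∧ ∀ C, Consistent (k + 2) C → Inv (k + 2) C L → Inv (k + 2) C M := by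
  induction h with
  | fin n p L h =>
    exact ⟨_, Nat.eq_of_beq_eq_true h, fun C hC hL => run_Inv hC (Nat.le_add_left 2 k) n p L hL⟩
  | mid n p L M h _ ih =>
    obtain ⟨N, hz, hN⟩ := ih
    refine ⟨N, hz, fun C hC hL => hN C hC fun κ hκ h0 => ?_⟩
    have h1 := run_Inv hC (Nat.le_add_left 2 k) n p L hL κ hκ h0
    have h2 : (Kempe.run k n p L).lor M = M := Nat.eq_of_beq_eq_true h
    rw [← h2, Nat.lor_eq, Nat.testBit_or]
    exact Bool.or_eq_true_iff.2 (.inl h1)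

theorem RawB.red {S : Raw} (h : RawB S) : Red S.cfg := by
  obtain ⟨k, P, h, hc⟩ := h
  simp only [progB, Bool.and_eq_true, Nat.beq_eq, Nat.add_eq] at h
  obtain ⟨⟨hr, h0⟩, hX⟩ := h
  obtain ⟨M, hz, hM⟩ := hc.ex
  have hr' : S.cfg.ring.length = k + 2 := hr
  classical
  refine red_of_run S.cfg k P (fun L => if L = live0 S.R k P then M else L) (by omega)
    (fun C L hC hL => ?_) h0 hX ?_
  · rw [hr'] at hC hL ⊢
    split_ifs with e
    · exact hM C hC (e ▸ hL)
    · exact hL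
  · exact (congrArg (fun x => Nat.land x _) (if_pos rfl)).trans hz

/-- One quiz of a configuration that passed the test. -/
theorem RawB.quiz {S : Raw} (h : RawB S) (q : ℕ) (ext : List (ℕ × ℕ × ℕ))
    (whl : List (ℕ × List ℕ)) (ord R : List ℕ)
    (e : (staticB S.cfg && quizB S.cfg q ext whl ord R) = true) : QEx q :=
  quiz_ok (Bool.and_eq_true_iff.1 e).1 h.red q ext whl ord R (Bool.and_eq_true_iff.1 e).2

end Pool.Agent.Lib.MP_fe5cb4_co.FC
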